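import Mathlib

/-!
# MP_18f1d7_lc: sentences of `L_{ω₁ω}`, complete sentences, characterizable cardinals

Definitions used in the statement of the result.
-/

open Cardinal

namespace Pool.Agent.MP_18f1d7_lc

universe u

/-- Formulas of `L_{ω₁ω}` over the first order language `L`, with free variables among
`v_0, ..., v_(n-1)`: atomic formulas, negations, countable conjunctions and universal
quantification (of the variable `v_n`). -/
inductive Fml (L : FirstOrder.Language.{0, 0}) : ℕ → Type
  | eq {n : ℕ} (s t : L.Term (Fin n)) : Fml L n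
  | rel {n k : ℕ} (r : L.Relations k) (ts : Fin k → L.Term (Fin n)) : Fml L n
  | neg {n : ℕ} (φ : Fml L n) : Fml L n
  | conj {n : ℕ} (φ : ℕ → Fml L n) : Fml L n
  | all {n : ℕ} (φ : Fml L (n + 1)) : Fml L n

/-- Satisfaction of an `L_{ω₁ω}` formula in an `L`-structure `M` at the tuple `v`. -/
def Fml.Realize {L : FirstOrder.Language.{0, 0}} {M : Type u} [L.Structure M] :
    {n : ℕ} → Fml L n → (Fin n → M) → Prop
  | _, .eq s t, v => s.realize v = t.realize v
  | _, .rel r ts, v => FirstOrder.Language.Structure.RelMap r fun i => (ts i).realize v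
  | _, .neg φ, v => ¬ φ.Realize v
  | _, .conj φ, v => ∀ i, (φ i).Realize v
  | _, .all φ, v => ∀ x : M, φ.Realize (Fin.snoc v x : Fin _ → M)

/-- `M ⊨ φ` for a sentence `φ` of `L_{ω₁ω}`. -/
def Models {L : FirstOrder.Language.{0, 0}} (M : Type u) [L.Structure M] (φ : Fml L 0) : Prop :=
  φ.Realize (M := M) Fin.elim0

/-- The sentence `φ` is complete: it has a model, and for every sentence `ψ` of `L_{ω₁ω}`
either all models of `φ` satisfy `ψ` or all models of `φ` satisfy `¬ψ`. -/
def IsComplete {L : FirstOrder.Language.{0, 0}} (φ : Fml L 0) : Prop :=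
  (∃ (M : Type u) (_ : L.Structure M), Nonempty M ∧ Models M φ) ∧
  ∀ ψ : Fml L 0,
    (∀ (M : Type u) [L.Structure M] [Nonempty M], Models M φ → Models M ψ) ∨
    (∀ (M : Type u) [L.Structure M] [Nonempty M], Models M φ → Models M (Fml.neg ψ))

/-- `φ` characterizes the infinite cardinal `κ`: it has a model of every infinite cardinality
`≤ κ` but no model of cardinality `κ⁺`. -/
def Characterizes {L : FirstOrder.Language.{0, 0}} (φ : Fml L 0) (κ : Cardinal.{u}) : Prop :=
  (∀ μ : Cardinal.{u}, ℵ₀ ≤ μ → μ ≤ κ → ∃ (M : Type u) (_ : L.Structure M), #M = μ ∧ Models M φ) ∧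
  ¬ ∃ (M : Type u) (_ : L.Structure M), #M = Order.succ κ ∧ Models M φ

/-- `Ch`: the class of all (infinite) cardinals that are completely characterized, that is,
characterized by some complete sentence of `L_{ω₁ω}` in a countable language. -/
def Ch : Set Cardinal.{u} :=
  {κ | ℵ₀ ≤ κ ∧ ∃ (L : FirstOrder.Language.{0, 0}), Countable L.Symbols ∧
    ∃ φ : Fml L 0, IsComplete.{u} φ ∧ Characterizes φ κ}

end Pool.Agent.MP_18f1d7_lc
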