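import Mathlib

/-!
# MP_18f1d7_lc: full coloured structures exist
-/

open Cardinal

namespace Pool.Agent.MP_18f1d7_lc

universe u

/-- the conditions on the colouring `g` and the values `a` -/
structure Good {P M L : Type u} (g : P → P → M) (a : P → P → L) : Prop where
  sym : ∀ x y, x ≠ y → g x y = g y x
  ax : ∀ x y z, x ≠ y → x ≠ z → y ≠ z → g x y = g x z → g y z = g x z → a x z ≠ a y z
  full : ∀ (B : Finset P) (h : P → M) (u v : P → L),
    (∀ b ∈ B, ∀ b' ∈ B, b ≠ b' → h b = h b' → g b b' = h b → u b ≠ a b' b ∧ v b ≠ v b') →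
    ∃ p, p ∉ B ∧ ∀ b ∈ B, g p b = h b ∧ a p b = u b ∧ a b p = v b

namespace Full

variable {P M L : Type u} [LinearOrder P] [WellFoundedLT P]
  (e : P → M → L) (D : P → Finset (P × M × L × L)) (can : P → P → M)

open Classical in
/-- the row of `z` -/
noncomputable def row (V : Prop) (z x : P) : M × L × L :=
  if h : V ∧ ∃ q : M × L × L, (x, q) ∈ D z then h.2.choose
  else (can z x, e z (can z x), e x (can z x))

/-- the data attached to `z` are consistent -/
noncomputable def valid : P → Prop :=
  (wellFounded_lt (α := P)).fix fun z ih =>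
    (∀ b q q', (b, q) ∈ D z → (b, q') ∈ D z → q = q') ∧ (∀ p ∈ D z, p.1 < z) ∧
    ∀ b q b' q', (b, q) ∈ D z → (b', q') ∈ D z → b' < b → ∀ hb : b < z, q.1 = q'.1 →
      (row e D can (ih b hb) b b').1 = q.1 →
      q.2.1 ≠ (row e D can (ih b hb) b b').2.2 ∧ q'.2.1 ≠ (row e D can (ih b hb) b b').2.1 ∧
        q.2.2 ≠ q'.2.2

theorem valid_iff (z : P) : valid e D can z ↔
    (∀ b q q', (b, q) ∈ D z → (b, q') ∈ D z → q = q') ∧ (∀ p ∈ D z, p.1 < z) ∧
    ∀ b q b' q', (b, q) ∈ D z → (b', q') ∈ D z → b' < b → ∀ _ : b < z, q.1 = q'.1 →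
      (row e D can (valid e D can b) b b').1 = q.1 →
      q.2.1 ≠ (row e D can (valid e D can b) b b').2.2 ∧
      q'.2.1 ≠ (row e D can (valid e D can b) b b').2.1 ∧ q.2.2 ≠ q'.2.2 := by
  unfold valid
  rw [WellFounded.fix_eq]

/-- the colouring -/
noncomputable def G (x y : P) : M :=
  if y < x then (row e D can (valid e D can x) x y).1 else (row e D can (valid e D can y) y x).1

/-- the values -/
noncomputable def A (x y : P) : L :=
  if y < x then (row e D can (valid e D can x) x y).2.1
  else (row e D can (valid e D can y) y x).2.2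

theorem key (hcan : ∀ z x, x < z → e z (can z x) ≠ e x (can z x) ∧
      (∀ q ∈ D x, q.2.1 ≠ can z x) ∧ ∀ q ∈ D z, q.2.1 ≠ can z x)
    {p q r : P} (hpq : p < q) (hqr : q < r)
    (h1 : G e D can p q = G e D can p r) (h2 : G e D can q r = G e D can p r) :
    A e D can p r ≠ A e D can q r ∧ A e D can p q ≠ A e D can r q ∧
      A e D can q p ≠ A e D can r p := by
  classical
  have hpr := hpq.trans hqr
  simp only [G, A, if_neg (not_lt.2 hpq.le), if_neg (not_lt.2 hqr.le), if_neg (not_lt.2 hpr.le),
    if_pos hpq, if_pos hqr, if_pos hpr] at h1 h2 ⊢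
  by_cases hp : valid e D can r ∧ ∃ s, (p, s) ∈ D r
  · by_cases hq : valid e D can r ∧ ∃ s, (q, s) ∈ D r
    · have hrp : (p, row e D can (valid e D can r) r p) ∈ D r := by
        rw [row, dif_pos hp]; exact hp.2.choose_spec
      have hrq : (q, row e D can (valid e D can r) r q) ∈ D r := by
        rw [row, dif_pos hq]; exact hq.2.choose_spec
      have H := ((valid_iff e D can r).1 hp.1).2.2 q _ p _ hrq hrp hpq hqr h2 (h1.trans h2.symm)
      exact ⟨H.2.2.symm, H.1.symm, H.2.1.symm⟩
    · exfalso
      have hrp : (p, row e D can (valid e D can r) r p) ∈ D r := by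
        rw [row, dif_pos hp]; exact hp.2.choose_spec
      have hrq : (row e D can (valid e D can r) r q).1 = can r q := by
        rw [row, dif_neg hq]
      exact (hcan r q hqr).2.2 _ hrp (h2.symm.trans hrq)
  · by_cases hq : valid e D can r ∧ ∃ s, (q, s) ∈ D r
    · exfalso
      have hrq : (q, row e D can (valid e D can r) r q) ∈ D r := by
        rw [row, dif_pos hq]; exact hq.2.choose_spec
      have hrp : (row e D can (valid e D can r) r p).1 = can r p := by
        rw [row, dif_neg hp]
      exact (hcan r p hpr).2.2 _ hrq (h2.trans hrp)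
    · have hrp : row e D can (valid e D can r) r p = (can r p, e r (can r p), e p (can r p)) := by
        rw [row, dif_neg hp]
      have hrq : row e D can (valid e D can r) r q = (can r q, e r (can r q), e q (can r q)) := by
        rw [row, dif_neg hq]
      by_cases hpq' : valid e D can q ∧ ∃ s, (p, s) ∈ D q
      · exfalso
        have hqp : (p, row e D can (valid e D can q) q p) ∈ D q := by
          rw [row, dif_pos hpq']; exact hpq'.2.choose_spec
        rw [hrq] at h2
        exact (hcan r q hqr).2.1 _ hqp (h1.trans h2.symm)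
      · have hqp : row e D can (valid e D can q) q p = (can q p, e q (can q p), e p (can q p)) := by
          rw [row, dif_neg hpq']
        rw [hqp, hrp] at h1
        rw [hrq, hrp] at h2
        rw [hqp, hrp, hrq]
        simp only at h1 h2 ⊢
        have c1 := (hcan r p hpr).1
        have c2 := (hcan r q hqr).1
        have c3 := (hcan q p hpq).1
        rw [h1] at c3 ⊢
        rw [h2] at c2 ⊢
        exact ⟨c3.symm, c1.symm, c2.symm⟩

theorem good (hcan : ∀ z x, x < z → e z (can z x) ≠ e x (can z x) ∧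
      (∀ q ∈ D x, q.2.1 ≠ can z x) ∧ ∀ q ∈ D z, q.2.1 ≠ can z x)
    (hD : ∀ (d : Finset (P × M × L × L)) (B : Finset P), ∃ z, D z = d ∧ ∀ b ∈ B, b < z) :
    Good (G e D can) (A e D can) := by
  classical
  have hsym : ∀ x y, x ≠ y → G e D can x y = G e D can y x := by
    intro x y hxy
    rcases lt_or_gt_of_ne hxy with h | h
    · simp only [G, if_neg (not_lt.2 h.le), if_pos h]
    · simp only [G, if_neg (not_lt.2 h.le), if_pos h]
  refine ⟨hsym, ?_, ?_⟩
  · intro x y z hxy hxz hyz h1 h2
    rcases lt_or_gt_of_ne hxy with c1 | c1 <;> rcases lt_or_gt_of_ne hxz with c2 | c2 <;>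
      rcases lt_or_gt_of_ne hyz with c3 | c3
    · exact (key e D can hcan c1 c3 h1 h2).1
    · -- x < z < y
      exact (key e D can hcan c2 c3 h1.symm (by rw [hsym z y hyz.symm, h2, h1])).2.1
    · exact absurd (c1.trans c3) (not_lt.2 c2.le)
    · -- z < x < y
      have := (key e D can hcan c2 c1 (p := z) (q := x) (r := y)
        (by rw [hsym z x hxz.symm, hsym z y hyz.symm, h2])
        (by rw [hsym z y hyz.symm, h2, h1])).2.2
      exact this
    · -- y < x < z
      exact (key e D can hcan c1 c2 (p := y) (q := x) (r := z)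
        (by rw [hsym y x hxy.symm, h1, h2]) h2.symm).1.symm
    · exact absurd (c3.trans c1) (not_lt.2 c2.le)
    · -- y < z < x
      exact (key e D can hcan c3 c2 (p := y) (q := z) (r := x)
        (by rw [hsym y x hxy.symm, h1, h2]) (by rw [hsym z x hxz.symm, hsym y x hxy.symm, h1])).2.1.symm
    · -- z < y < x
      exact (key e D can hcan c3 c1 (p := z) (q := y) (r := x)
        (by rw [hsym z y hyz.symm, hsym z x hxz.symm, h2])
        (by rw [hsym y x hxy.symm, hsym z x hxz.symm, h1])).2.2.symm
  · intro B h u v hB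
    obtain ⟨z, hz, hlt⟩ := hD (B.image fun b => (b, h b, u b, v b)) B
    have hmem : ∀ b q, (b, q) ∈ D z → b ∈ B ∧ q = (h b, u b, v b) := by
      intro b q hbq
      rw [hz] at hbq
      obtain ⟨b0, hb0, he⟩ := Finset.mem_image.1 hbq
      simp only [Prod.mk.injEq] at he
      obtain ⟨rfl, he⟩ := he
      refine ⟨hb0, he.symm⟩
    have hval : valid e D can z := by
      rw [valid_iff]
      refine ⟨?_, ?_, ?_⟩
      · intro b q q' h1 h2
        rw [(hmem b q h1).2, (hmem b q' h2).2]
      · rintro ⟨b, q⟩ hbq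
        exact hlt b (hmem b q hbq).1
      · intro b q b' q' h1 h2 hbb hbz hq hrow
        obtain ⟨hb, rfl⟩ := hmem b q h1
        obtain ⟨hb', rfl⟩ := hmem b' q' h2
        simp only at hq hrow ⊢
        have hG : G e D can b b' = h b := by
          simp only [G, if_pos hbb]; exact hrow
        have k1 := hB b hb b' hb' hbb.ne' hq hG
        have k2 := hB b' hb' b hb hbb.ne hq.symm (by rw [hsym b' b hbb.ne, hG, hq])
        simp only [A, if_pos hbb, if_neg (not_lt.2 hbb.le)] at k1 k2
        exact ⟨k1.1, k2.1, k1.2⟩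
    refine ⟨z, fun hzB => lt_irrefl _ (hlt z hzB), fun b hb => ?_⟩
    have hex : ∃ q, (b, q) ∈ D z := ⟨(h b, u b, v b), by
      rw [hz]; exact Finset.mem_image_of_mem _ hb⟩
    have hrow : row e D can (valid e D can z) z b = (h b, u b, v b) := by
      have hs : valid e D can z ∧ ∃ q, (b, q) ∈ D z := ⟨hval, hex⟩
      rw [row, dif_pos hs]
      exact (hmem b _ hs.2.choose_spec).2
    have hbz := hlt b hb
    simp only [G, A, if_pos hbz, if_neg (not_lt.2 hbz.le), hrow]
    exact ⟨trivial, trivial, trivial⟩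

end Full

/-- Existence of full coloured structures. -/
theorem exists_good (M L : Type u) (θ : Cardinal.{u}) (hθ : ℵ₀ ≤ θ) (hM : #M ≤ θ) (hL : #L ≤ θ)
    [Infinite M] [Nonempty L] (hθ' : θ ≤ #(M → L)) :
    ∃ (P : Type u) (g : P → P → M) (a : P → P → L), #P = θ ∧ Good g a := by
  classical
  let P : Type u := θ.ord.ToType
  have hP : #P = θ := Cardinal.mk_ord_toType θ
  have hPinf : Infinite P := Cardinal.infinite_iff.2 (by rw [hP]; exact hθ)
  -- the functions
  obtain ⟨w⟩ : Nonempty (P ↪ (M → L)) := by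
    rw [← Cardinal.le_def, hP]; exact hθ'
  obtain ⟨φ⟩ : Nonempty (M ≃ M × ULift.{u} ℕ) := by
    rw [← Cardinal.eq, Cardinal.mk_prod]
    simp only [Cardinal.lift_id, Cardinal.mk_uLift, Cardinal.mk_nat, Cardinal.lift_aleph0]
    exact (Cardinal.mul_aleph0_eq (Cardinal.infinite_iff.1 inferInstance)).symm
  let e : P → M → L := fun z m => w z (φ m).1
  -- the data
  have hcard : #(Finset (P × M × L × L) × P) = #P := by
    have h1 : #(P × M × L × L) = #P := by
      simp only [Cardinal.mk_prod, Cardinal.lift_id, hP]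
      refine le_antisymm ?_ ?_
      · refine Cardinal.mul_le_of_le hθ le_rfl ?_
        exact Cardinal.mul_le_of_le hθ hM (Cardinal.mul_le_of_le hθ hL hL)
      · refine Cardinal.le_mul_right ?_
        simp [Cardinal.mk_ne_zero]
    have h2 : Infinite (P × M × L × L) := Cardinal.infinite_iff.2 (by rw [h1, hP]; exact hθ)
    rw [Cardinal.mk_prod, Cardinal.lift_id, Cardinal.lift_id, Cardinal.mk_finset_of_infinite, h1]
    exact Cardinal.mul_eq_self (Cardinal.infinite_iff.1 hPinf)
  obtain ⟨s⟩ : Nonempty (P ≃ Finset (P × M × L × L) × P) := Cardinal.eq.1 hcard.symm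
  let D : P → Finset (P × M × L × L) := fun z => (s z).1
  have hD : ∀ (d : Finset (P × M × L × L)) (B : Finset P), ∃ z, D z = d ∧ ∀ b ∈ B, b < z := by
    intro d B
    by_contra hcon
    push Not at hcon
    have hB : ∀ z, D z = d → ∃ b ∈ B, z ≤ b := by
      intro z hz
      obtain ⟨b, hb, hbz⟩ := hcon z hz
      exact ⟨b, hb, hbz⟩
    have hne : B.Nonempty := by
      obtain ⟨b, hb, -⟩ := hB (s.symm (d, Classical.arbitrary P)) (by simp [D])
      exact ⟨b, hb⟩
    have hle : ∀ z, D z = d → z ≤ B.max' hne := by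
      intro z hz
      obtain ⟨b, hb, hzb⟩ := hB z hz
      exact hzb.trans (B.le_max' b hb)
    have hinj : Function.Injective (fun p : P =>
        (⟨s.symm (d, p), hle _ (by simp [D])⟩ : Set.Iic (B.max' hne))) := by
      intro p p' h
      have := Subtype.ext_iff.1 h
      simp only at this
      have := s.symm.injective this
      simpa using this
    have h1 := Cardinal.mk_le_of_injective hinj
    have h2 : #(Set.Iic (B.max' hne)) < θ := by
      have h3 : Set.Iic (B.max' hne) = Set.Iio (B.max' hne) ∪ {B.max' hne} := by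
        ext x; simp [le_iff_lt_or_eq]
      rw [h3]
      refine (Cardinal.mk_union_le _ _).trans_lt ?_
      refine Cardinal.add_lt_of_lt hθ ?_ ?_
      · have := Cardinal.mk_Iio_lt (B.max' hne) (by
          rw [hP]; exact (Ordinal.type_toType _).symm)
        rwa [hP] at this
      · rw [Cardinal.mk_singleton]
        exact Cardinal.one_lt_aleph0.trans_le hθ
    rw [hP] at h1
    exact absurd h1 (not_le.2 h2)
  -- the canonical colours
  have hcan : ∀ z x : P, ∃ m : M, x < z → e z m ≠ e x m ∧ (∀ q ∈ D x, q.2.1 ≠ m) ∧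
      ∀ q ∈ D z, q.2.1 ≠ m := by
    intro z x
    by_cases hxz : x < z
    · have hne : w z ≠ w x := fun h => hxz.ne' (w.injective h)
      obtain ⟨m0, hm0⟩ := Function.ne_iff.1 hne
      let C : Finset M := (D x).image (fun q => q.2.1) ∪ (D z).image (fun q => q.2.1)
      have hinf : (Set.range fun n : ULift.{u} ℕ => φ.symm (m0, n)).Infinite := by
        refine Set.infinite_range_of_injective ?_
        intro n n' h
        have := φ.symm.injective h
        simpa using this
      obtain ⟨m, ⟨n, rfl⟩, hmC⟩ := hinf.exists_notMem_finset C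
      refine ⟨φ.symm (m0, n), fun _ => ⟨?_, ?_, ?_⟩⟩
      · simp only [e, Equiv.apply_symm_apply]
        exact hm0
      · intro q hq h
        exact hmC (Finset.mem_union_left _ (Finset.mem_image.2 ⟨q, hq, h⟩))
      · intro q hq h
        exact hmC (Finset.mem_union_right _ (Finset.mem_image.2 ⟨q, hq, h⟩))
    · exact ⟨Classical.arbitrary M, fun h => (hxz h).elim⟩
  choose can hcan using hcan
  exact ⟨P, Full.G e D can, Full.A e D can, hP, Full.good e D can hcan hD⟩

end Pool.Agent.MP_18f1d7_lc
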