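import Pool.Agent.MP_18f1d7_lc.Sys
import Pool.Agent.MP_18f1d7_lc.Full

/-!
# MP_18f1d7_lc: extending a finite matching of the coloured sets
-/

open Cardinal

namespace Pool.Agent.MP_18f1d7_lc

universe u

variable {P M L P' M' L' : Type u}

/-- a finite matching of `P` and `P'` compatible with colours and values -/
structure GoodB (g : P → P → M) (a : P → P → L) (g' : P' → P' → M') (a' : P' → P' → L')
    (F₁ : Set (M × M')) (F₂ : Set (L × L')) (B : Set (P × P')) : Prop where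
  fin : B.Finite
  inj : ∀ p p' q q', (p, p') ∈ B → (q, q') ∈ B → (p = q ↔ p' = q')
  val : ∀ p p' q q', (p, p') ∈ B → (q, q') ∈ B → p ≠ q →
    (g p q, g' p' q') ∈ F₁ ∧ (a p q, a' p' q') ∈ F₂

theorem GoodB.swap {g : P → P → M} {a : P → P → L} {g' : P' → P' → M'} {a' : P' → P' → L'}
    {F₁ : Set (M × M')} {F₂ : Set (L × L')} {B : Set (P × P')} (h : GoodB g a g' a' F₁ F₂ B) :
    GoodB g' a' g a (Prod.swap ⁻¹' F₁) (Prod.swap ⁻¹' F₂) (Prod.swap ⁻¹' B) := by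
  refine ⟨?_, ?_, ?_⟩
  · exact h.fin.preimage Prod.swap_injective.injOn
  · intro p p' q q' h1 h2
    exact (h.inj p' p q' q h1 h2).symm
  · intro p p' q q' h1 h2 hne
    exact h.val p' p q' q h1 h2 (fun h3 => hne ((h.inj p' p q' q h1 h2).1 h3))

theorem GoodB.mono {g : P → P → M} {a : P → P → L} {g' : P' → P' → M'} {a' : P' → P' → L'}
    {F₁ F₁' : Set (M × M')} {F₂ F₂' : Set (L × L')} {B : Set (P × P')}
    (h : GoodB g a g' a' F₁ F₂ B) (h1 : F₁ ⊆ F₁') (h2 : F₂ ⊆ F₂') :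
    GoodB g a g' a' F₁' F₂' B :=
  ⟨h.fin, h.inj, fun p p' q q' hp hq hne =>
    ⟨h1 (h.val p p' q q' hp hq hne).1, h2 (h.val p p' q q' hp hq hne).2⟩⟩

theorem exists_ext {g : P → P → M} {a : P → P → L} {g' : P' → P' → M'} {a' : P' → P' → L'}
    (hG : Good g a) (hG' : Good g' a') {S₁ : Set (Set (M × M'))} {S₂ : Set (Set (L × L'))}
    (hS₁ : IsSys S₁) (hS₂ : IsSys S₂) [Nonempty M'] [Nonempty L']
    {F₁ : Set (M × M')} {F₂ : Set (L × L')} {B : Set (P × P')} (hF₁ : F₁ ∈ S₁) (hF₂ : F₂ ∈ S₂)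
    (hB : GoodB g a g' a' F₁ F₂ B) (p : P) :
    ∃ p' F₁' F₂', F₁' ∈ S₁ ∧ F₂' ∈ S₂ ∧ F₁ ⊆ F₁' ∧ F₂ ⊆ F₂' ∧
      GoodB g a g' a' F₁' F₂' (insert (p, p') B) := by
  classical
  by_cases hp : ∃ p', (p, p') ∈ B
  · obtain ⟨p', hp'⟩ := hp
    exact ⟨p', F₁, F₂, hF₁, hF₂, le_rfl, le_rfl, by rwa [Set.insert_eq_of_mem hp']⟩
  · have hpB : ∀ b b', (b, b') ∈ B → b ≠ p := by
      rintro b b' hb rfl
      exact hp ⟨b', hb⟩
    -- extend the two systems
    obtain ⟨F₁', hF₁', hsub₁, hX₁⟩ := hS₁.ext_finset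
      (hB.fin.toFinset.image fun q => g p q.1) F₁ hF₁
    obtain ⟨F₂', hF₂', hsub₂, hX₂⟩ := hS₂.ext_finset
      ((hB.fin.toFinset.image fun q => a p q.1) ∪ (hB.fin.toFinset.image fun q => a q.1 p)) F₂ hF₂
    have hh : ∀ b' : P', ∃ m' : M', ∀ b, (b, b') ∈ B → (g p b, m') ∈ F₁' := by
      intro b'
      by_cases hb : ∃ b, (b, b') ∈ B
      · obtain ⟨b, hb⟩ := hb
        obtain ⟨m', hm'⟩ := hX₁ (g p b) (Finset.mem_image.2 ⟨(b, b'), hB.fin.mem_toFinset.2 hb, rfl⟩)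
        refine ⟨m', fun b2 hb2 => ?_⟩
        rw [(hB.inj b2 b' b b' hb2 hb).2 rfl]
        exact hm'
      · exact ⟨Classical.arbitrary M', fun b hb' => (hb ⟨b, hb'⟩).elim⟩
    have hu : ∀ b' : P', ∃ l' : L', ∀ b, (b, b') ∈ B → (a p b, l') ∈ F₂' := by
      intro b'
      by_cases hb : ∃ b, (b, b') ∈ B
      · obtain ⟨b, hb⟩ := hb
        obtain ⟨m', hm'⟩ := hX₂ (a p b) (Finset.mem_union_left _
          (Finset.mem_image.2 ⟨(b, b'), hB.fin.mem_toFinset.2 hb, rfl⟩))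
        refine ⟨m', fun b2 hb2 => ?_⟩
        rw [(hB.inj b2 b' b b' hb2 hb).2 rfl]
        exact hm'
      · exact ⟨Classical.arbitrary L', fun b hb' => (hb ⟨b, hb'⟩).elim⟩
    have hv : ∀ b' : P', ∃ l' : L', ∀ b, (b, b') ∈ B → (a b p, l') ∈ F₂' := by
      intro b'
      by_cases hb : ∃ b, (b, b') ∈ B
      · obtain ⟨b, hb⟩ := hb
        obtain ⟨m', hm'⟩ := hX₂ (a b p) (Finset.mem_union_right _
          (Finset.mem_image.2 ⟨(b, b'), hB.fin.mem_toFinset.2 hb, rfl⟩))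
        refine ⟨m', fun b2 hb2 => ?_⟩
        rw [(hB.inj b2 b' b b' hb2 hb).2 rfl]
        exact hm'
      · exact ⟨Classical.arbitrary L', fun b hb' => (hb ⟨b, hb'⟩).elim⟩
    choose h hh using hh
    choose u hu using hu
    choose v hv using hv
    obtain ⟨p', hp'B, hp'⟩ := hG'.full (hB.fin.toFinset.image Prod.snd) h u v (by
      intro b1' hb1' b2' hb2' hne heq hgeq
      obtain ⟨⟨b1, _⟩, hb1, rfl⟩ := Finset.mem_image.1 hb1'
      obtain ⟨⟨b2, _⟩, hb2, rfl⟩ := Finset.mem_image.1 hb2'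
      rename_i c1 c2
      simp only at hne heq hgeq ⊢
      have hb1 : (b1, c1) ∈ B := hB.fin.mem_toFinset.1 hb1
      have hb2 : (b2, c2) ∈ B := hB.fin.mem_toFinset.1 hb2
      have hne' : b1 ≠ b2 := fun h3 => hne ((hB.inj _ _ _ _ hb1 hb2).1 h3)
      have e1 : g p b1 = g p b2 :=
        (hS₁.inj F₁' hF₁' _ _ _ _ (hh c1 b1 hb1) (hh c2 b2 hb2)).2 heq
      have e2 : g b1 b2 = g p b1 :=
        (hS₁.inj F₁' hF₁' _ _ _ _ (hsub₁ (hB.val _ _ _ _ hb1 hb2 hne').1) (hh c1 b1 hb1)).2 hgeq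
      have hp1 := hpB b1 c1 hb1
      have hp2 := hpB b2 c2 hb2
      constructor
      · have := hG.ax p b2 b1 hp2.symm hp1.symm hne'.symm e1.symm
          ((hG.sym b2 b1 hne'.symm).trans e2)
        intro hc
        exact this ((hS₂.inj F₂' hF₂' _ _ _ _ (hu c1 b1 hb1)
          (hsub₂ (hB.val _ _ _ _ hb2 hb1 hne'.symm).2)).2 hc)
      · have := hG.ax b1 b2 p hne' hp1 hp2 (e2.trans (hG.sym p b1 hp1.symm))
          ((hG.sym b2 p hp2).trans (e1.symm.trans (hG.sym p b1 hp1.symm)))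
        intro hc
        exact this ((hS₂.inj F₂' hF₂' _ _ _ _ (hv c1 b1 hb1) (hv c2 b2 hb2)).2 hc))
    have hp'ne : ∀ b b', (b, b') ∈ B → b' ≠ p' := by
      rintro b b' hb rfl
      exact hp'B (Finset.mem_image.2 ⟨(b, b'), hB.fin.mem_toFinset.2 hb, rfl⟩)
    have hp'' : ∀ b b', (b, b') ∈ B → g' p' b' = h b' ∧ a' p' b' = u b' ∧ a' b' p' = v b' :=
      fun b b' hb => hp' b' (Finset.mem_image.2 ⟨(b, b'), hB.fin.mem_toFinset.2 hb, rfl⟩)
    refine ⟨p', F₁', F₂', hF₁', hF₂', hsub₁, hsub₂, hB.fin.insert _, ?_, ?_⟩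
    · intro q q' r r' hq hr
      rcases Set.mem_insert_iff.1 hq with hq | hq <;> rcases Set.mem_insert_iff.1 hr with hr | hr
      · simp only [Prod.mk.injEq] at hq hr
        simp [hq, hr]
      · simp only [Prod.mk.injEq] at hq
        rw [hq.1, hq.2]
        exact ⟨fun h3 => (hpB _ _ hr h3.symm).elim, fun h3 => (hp'ne _ _ hr h3.symm).elim⟩
      · simp only [Prod.mk.injEq] at hr
        rw [hr.1, hr.2]
        exact ⟨fun h3 => (hpB _ _ hq h3).elim, fun h3 => (hp'ne _ _ hq h3).elim⟩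
      · exact hB.inj _ _ _ _ hq hr
    · intro q q' r r' hq hr hne
      rcases Set.mem_insert_iff.1 hq with hq | hq <;> rcases Set.mem_insert_iff.1 hr with hr | hr
      · simp only [Prod.mk.injEq] at hq hr
        exact (hne (hq.1.trans hr.1.symm)).elim
      · simp only [Prod.mk.injEq] at hq
        rw [hq.1, hq.2, (hp'' _ _ hr).1, (hp'' _ _ hr).2.1]
        exact ⟨hh _ _ hr, hu _ _ hr⟩
      · simp only [Prod.mk.injEq] at hr
        rw [hr.1, hr.2, (hp'' _ _ hq).2.2, hG.sym q p (hpB _ _ hq),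
          hG'.sym q' p' (hp'ne _ _ hq), (hp'' _ _ hq).1]
        exact ⟨hh _ _ hq, hv _ _ hq⟩
      · have := hB.val _ _ _ _ hq hr hne
        exact ⟨hsub₁ this.1, hsub₂ this.2⟩

end Pool.Agent.MP_18f1d7_lc
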