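import Pool.Agent.MP_18f1d7_lc.Scott

/-!
# MP_18f1d7_lc: downward Löwenheim-Skolem for structures linked to a countable structure
-/

open Cardinal FirstOrder.Language.Structure

namespace Pool.Agent.MP_18f1d7_lc

universe u

variable {L : FirstOrder.Language.{0, 0}} {M N : Type u} [L.Structure M] [L.Structure N]
  {S : Set (Set (M × N))}

theorem IsSys.back_fin {M N : Type u} {S : Set (Set (M × N))} (hS : IsSys S) (Z : Set N)
    (Y : Finset N) (hY : ∀ y ∈ Y, y ∈ Z) :
    ∃ F ∈ S, F.Finite ∧ (∀ p ∈ F, p.2 ∈ Z) ∧ ∀ y ∈ Y, ∃ x, (x, y) ∈ F := by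
  classical
  induction Y using Finset.induction_on with
  | empty => exact ⟨∅, hS.empty, Set.finite_empty, by simp, by simp⟩
  | insert a Y ha ih =>
    obtain ⟨F, hF, hfin, hZ, hcov⟩ := ih (fun y hy => hY y (Finset.mem_insert_of_mem hy))
    obtain ⟨x, hx⟩ := hS.back F hF a
    refine ⟨_, hx, hfin.insert _, ?_, ?_⟩
    · intro p hp
      rcases Set.mem_insert_iff.1 hp with rfl | hp
      · exact hY a (Finset.mem_insert_self _ _)
      · exact hZ p hp
    · intro y hy
      rcases Finset.mem_insert.1 hy with rfl | hy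
      · exact ⟨x, Set.mem_insert _ _⟩
      · obtain ⟨z, hz⟩ := hcov y hy
        exact ⟨z, Set.mem_insert_of_mem _ hz⟩

theorem IsBF.exists_sub (hS : IsBF L S) [Countable M] [Nonempty M] (μ : Cardinal.{u})
    (hμ : ℵ₀ ≤ μ) (hμN : μ ≤ #N) :
    ∃ (N' : Type u) (_ : L.Structure N') (S' : Set (Set (M × N'))), #N' = μ ∧ IsBF L S' := by
  classical
  have hne : Nonempty N := by
    have : (0 : Cardinal) < #N := lt_of_lt_of_le (lt_of_lt_of_le Cardinal.aleph0_pos hμ) hμN
    exact mk_ne_zero_iff.1 this.ne'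
  -- witnesses
  have hw : ∀ (F : Set (M × N)) (x : M), ∃ y, F ∈ S → insert (x, y) F ∈ S := by
    intro F x
    by_cases hF : F ∈ S
    · obtain ⟨y, hy⟩ := hS.forth F hF x
      exact ⟨y, fun _ => hy⟩
    · exact ⟨hne.some, fun h => (hF h).elim⟩
  choose w hw using hw
  obtain ⟨Z0, hZ0⟩ := Cardinal.le_mk_iff_exists_set.1 hμN
  let step : Set N → Set N := fun Z =>
    Z ∪ Set.range (fun p : List (M × Z) × M =>
      w {q : M × N | ∃ r ∈ p.1, q = (r.1, (r.2 : N))} p.2)
  have hM : #M ≤ μ := (Cardinal.mk_le_aleph0).trans hμ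
  have hstep : ∀ Z : Set N, #Z ≤ μ → #(step Z) ≤ μ := by
    intro Z hZ
    have h1 : #(List (M × Z)) ≤ μ := by
      refine (Cardinal.mk_list_le_max _).trans (max_le hμ ?_)
      rw [Cardinal.mk_prod]
      simp only [Cardinal.lift_id]
      exact Cardinal.mul_le_of_le hμ hM hZ
    have h2 : #(List (M × Z) × M) ≤ μ := by
      rw [Cardinal.mk_prod]
      simp only [Cardinal.lift_id]
      exact Cardinal.mul_le_of_le hμ h1 hM
    refine (Cardinal.mk_union_le _ _).trans ?_
    exact Cardinal.add_le_of_le hμ hZ (Cardinal.mk_range_le.trans h2)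
  let Zs : ℕ → Set N := fun n => step^[n] Z0
  have hsucc : ∀ n, Zs (n + 1) = step (Zs n) := fun n => Function.iterate_succ_apply' _ _ _
  have hZs : ∀ n, #(Zs n) ≤ μ := by
    intro n
    induction n with
    | zero => exact hZ0.le
    | succ n ih =>
      rw [hsucc]
      exact hstep _ ih
  have hmono : ∀ n, Zs n ⊆ Zs (n + 1) := by
    intro n
    rw [hsucc]
    exact Set.subset_union_left
  have hmono' : Monotone Zs := monotone_nat_of_le_succ hmono
  let Z : Set N := ⋃ n : ULift.{u} ℕ, Zs n.down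
  have hZcard : #Z = μ := by
    apply le_antisymm
    · refine (Cardinal.mk_iUnion_le_sum_mk (f := fun n : ULift.{u} ℕ => Zs n.down)).trans ?_
      refine (Cardinal.sum_le_sum _ (fun _ : ULift.{u} ℕ => μ) (fun n => hZs n.down)).trans ?_
      rw [Cardinal.sum_const']
      refine Cardinal.mul_le_of_le hμ ?_ le_rfl
      exact Cardinal.mk_le_aleph0.trans hμ
    · rw [← hZ0]
      exact Cardinal.mk_le_mk_of_subset (Set.subset_iUnion (fun n : ULift.{u} ℕ => Zs n.down) ⟨0⟩)
  have hclosed : ∀ F : Set (M × N), F.Finite → (∀ p ∈ F, p.2 ∈ Z) → ∀ x, w F x ∈ Z := by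
    intro F hfin hZ x
    have hn : ∃ n, ∀ p ∈ F, p.2 ∈ Zs n := by
      have h1 : ∀ p : M × N, ∃ n, p ∈ F → p.2 ∈ Zs n := by
        intro p
        by_cases hp : p ∈ F
        · obtain ⟨n, hn⟩ := Set.mem_iUnion.1 (hZ p hp)
          exact ⟨n.down, fun _ => hn⟩
        · exact ⟨0, fun h => (hp h).elim⟩
      choose f hf using h1
      refine ⟨hfin.toFinset.sup f, fun p hp => ?_⟩
      exact hmono' (Finset.le_sup (f := f) (hfin.mem_toFinset.2 hp)) (hf p hp)
    obtain ⟨n, hn⟩ := hn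
    refine Set.mem_iUnion.2 ⟨⟨n + 1⟩, ?_⟩
    change w F x ∈ Zs (n + 1)
    rw [hsucc]
    right
    refine ⟨(hfin.toFinset.attach.toList.map fun p =>
      (p.1.1, ⟨p.1.2, hn p.1 (hfin.mem_toFinset.1 p.2)⟩), x), ?_⟩
    refine congrArg (fun G => w G x) ?_
    ext ⟨p, q⟩
    constructor
    · rintro ⟨r, hr, hr'⟩
      obtain ⟨t, -, rfl⟩ := List.mem_map.1 hr
      have h := hfin.mem_toFinset.1 t.2
      rw [hr']
      exact h
    · intro h
      refine ⟨(p, ⟨q, hn _ h⟩), List.mem_map.2 ⟨⟨(p, q), hfin.mem_toFinset.2 h⟩, ?_, rfl⟩, rfl⟩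
      simp
  let K : L.Substructure N :=
    { carrier := Z
      fun_mem := by
        intro n f x hx
        obtain ⟨F, hF, hfin, hZ, hcov⟩ := hS.back_fin Z (Finset.univ.image x) (by
          intro y hy
          obtain ⟨i, -, rfl⟩ := Finset.mem_image.1 hy
          exact hx i)
        have hcov' : ∀ i, ∃ a, (a, x i) ∈ F := fun i => hcov (x i) (by simp)
        choose a ha using hcov'
        have hins := hw F (funMap f a) hF
        have := (hS.fn _ hins n f a x _ _ (fun i => Set.mem_insert_of_mem _ (ha i))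
          (Set.mem_insert _ _)).1 rfl
        rw [this]
        exact hclosed F hfin hZ _ }
  refine ⟨K, inferInstance, {F' | F'.Finite ∧ (fun q : M × K => (q.1, (q.2 : N))) '' F' ∈ S},
    hZcard, ⟨?_, ?_, ?_, ?_⟩, ?_, ?_⟩
  · refine ⟨Set.finite_empty, ?_⟩
    rw [Set.image_empty]
    exact hS.empty
  · rintro F' ⟨hfin, hF⟩ x y x' y' h h'
    have := hS.inj _ hF x y x' y' ⟨(x, y), h, rfl⟩ ⟨(x', y'), h', rfl⟩
    rw [this, Subtype.ext_iff]
  · rintro F' ⟨hfin, hF⟩ x
    have hmem : w ((fun q : M × K => (q.1, (q.2 : N))) '' F') x ∈ Z := by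
      refine hclosed _ (hfin.image _) ?_ x
      rintro _ ⟨q, hq, rfl⟩
      exact q.2.2
    refine ⟨⟨_, hmem⟩, hfin.insert _, ?_⟩
    rw [Set.image_insert_eq]
    exact hw _ x hF
  · rintro F' ⟨hfin, hF⟩ y
    obtain ⟨x, hx⟩ := hS.back _ hF (y : N)
    refine ⟨x, hfin.insert _, ?_⟩
    rw [Set.image_insert_eq]
    exact hx
  · rintro F' ⟨hfin, hF⟩ n r a b h
    exact hS.rel _ hF n r a (fun i => (b i : N)) (fun i => ⟨(a i, b i), h i, rfl⟩)
  · rintro F' ⟨hfin, hF⟩ n f a b x y h h'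
    have := hS.fn _ hF n f a (fun i => (b i : N)) x y (fun i => ⟨(a i, b i), h i, rfl⟩)
      ⟨(x, y), h', rfl⟩
    rw [this, Subtype.ext_iff]
    rfl

end Pool.Agent.MP_18f1d7_lc
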