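import Pool.Agent.MP_18f1d7_lc.Upper

/-!
# MP_18f1d7_lc: assembly
-/

open Cardinal FirstOrder.Language.Structure

namespace Pool.Agent.MP_18f1d7_lc

universe u

/-- A member of `Ch` gives a countable structure `M₀`, a linked structure of size `κ`, and all
linked structures have size at most `κ`. -/
theorem semantic_of_mem {κ : Cardinal.{u}} (h : κ ∈ Ch.{u}) :
    ∃ (L : FirstOrder.Language.{0, 0}) (_ : Countable L.Symbols) (M₀ M : Type u)
      (_ : L.Structure M₀) (_ : L.Structure M) (S : Set (Set (M₀ × M))),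
      #M₀ = ℵ₀ ∧ #M = κ ∧ IsBF L S ∧
      ∀ (N : Type u) (_ : L.Structure N) (T : Set (Set (M₀ × N))), IsBF L T → #N ≤ κ := by
  obtain ⟨hκ, L, hL, φ, ⟨-, hcomp⟩, hchar, hno⟩ := h
  obtain ⟨M₀, s₀, hM₀, hφ₀⟩ := hchar ℵ₀ le_rfl hκ
  obtain ⟨M, s, hM, hφ⟩ := hchar κ hκ le_rfl
  have hc : Countable M₀ := Cardinal.mk_le_aleph0_iff.1 hM₀.le
  have hi : Infinite M₀ := Cardinal.infinite_iff.2 hM₀.ge
  have hiM : Infinite M := Cardinal.infinite_iff.2 (by rw [hM]; exact hκ)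
  obtain ⟨σ, hσ₀, hσ⟩ := exists_scott (L := L) (M := M₀) hL
  have hσM : Models M σ := by
    rcases hcomp σ with h | h
    · exact h M hφ
    · exact (h M₀ hφ₀ hσ₀).elim
  obtain ⟨S, hS⟩ := hσ M hσM
  refine ⟨L, hL, M₀, M, s₀, s, S, hM₀, hM, hS, ?_⟩
  intro N sN T hT
  by_contra hcon
  push Not at hcon
  obtain ⟨N', sN', S', hN', hS'⟩ := hT.exists_sub (Order.succ κ)
    (hκ.trans (Order.le_succ κ)) (Order.succ_le_of_lt hcon)
  exact hno ⟨N', sN', hN', (hS'.models_iff φ).1 hφ₀⟩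

/-- Conversely, such structures give a member of `Ch`. -/
theorem mem_of_semantic {κ : Cardinal.{u}} (hκ : ℵ₀ ≤ κ) (L : FirstOrder.Language.{0, 0})
    (hL : Countable L.Symbols) (M₀ M : Type u) (s₀ : L.Structure M₀) (s : L.Structure M)
    (S : Set (Set (M₀ × M))) (hM₀ : #M₀ = ℵ₀) (hM : #M = κ) (hS : IsBF L S)
    (hle : ∀ (N : Type u) (_ : L.Structure N) (T : Set (Set (M₀ × N))), IsBF L T → #N ≤ κ) :
    κ ∈ Ch.{u} := by
  have hc : Countable M₀ := Cardinal.mk_le_aleph0_iff.1 hM₀.le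
  have hi : Infinite M₀ := Cardinal.infinite_iff.2 hM₀.ge
  obtain ⟨σ, hσ₀, hσ⟩ := exists_scott (L := L) (M := M₀) hL
  refine ⟨hκ, L, hL, σ, ⟨⟨M₀, s₀, inferInstance, hσ₀⟩, ?_⟩, ?_, ?_⟩
  · intro ψ
    by_cases hψ : Models M₀ ψ
    · left
      intro N sN _ hN
      obtain ⟨T, hT⟩ := hσ N hN
      exact (hT.models_iff ψ).1 hψ
    · right
      intro N sN _ hN
      obtain ⟨T, hT⟩ := hσ N hN
      exact (hT.models_iff (Fml.neg ψ)).1 hψ
  · intro μ hμ hμκ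
    obtain ⟨N', sN', S', hN', hS'⟩ := hS.exists_sub μ hμ (by rw [hM]; exact hμκ)
    exact ⟨N', sN', hN', (hS'.models_iff σ).1 hσ₀⟩
  · rintro ⟨N, sN, hN, hσN⟩
    obtain ⟨T, hT⟩ := hσ N hσN
    have := hle N sN T hT
    rw [hN] at this
    exact absurd this (not_le.2 (Order.lt_succ κ))

theorem main (κ l : Cardinal.{u}) (hκ : κ ∈ Ch.{u}) (hl : l ∈ Ch.{u}) : l ^ κ ∈ Ch.{u} := by
  obtain ⟨L₁, hL₁, M₀, M, sM₀, sM, S₁, hM₀, hM, hS₁, hle₁⟩ := semantic_of_mem hκ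
  obtain ⟨L₂, hL₂, L₀, L, sL₀, sL, S₂, hL₀, hL, hS₂, hle₂⟩ := semantic_of_mem hl
  have hκ0 : ℵ₀ ≤ κ := hκ.1
  have hl0 : ℵ₀ ≤ l := hl.1
  have h2l : 2 ≤ l := (Cardinal.nat_lt_aleph0 2).le.trans hl0
  have hlk : l ≤ l ^ κ := Cardinal.self_le_power l (Cardinal.one_le_aleph0.trans hκ0)
  have hkk : κ ≤ l ^ κ := (Cardinal.cantor κ).le.trans (Cardinal.power_le_power_right h2l)
  have hθ : ℵ₀ ≤ l ^ κ := hl0.trans hlk
  have hcM₀ : Countable M₀ := Cardinal.mk_le_aleph0_iff.1 hM₀.le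
  have hcL₀ : Countable L₀ := Cardinal.mk_le_aleph0_iff.1 hL₀.le
  have hiM₀ : Infinite M₀ := Cardinal.infinite_iff.2 hM₀.ge
  have hiL₀ : Infinite L₀ := Cardinal.infinite_iff.2 hL₀.ge
  have hiM : Infinite M := Cardinal.infinite_iff.2 (by rw [hM]; exact hκ0)
  have hiL : Infinite L := Cardinal.infinite_iff.2 (by rw [hL]; exact hl0)
  obtain ⟨P₀, g₀, a₀, hP₀, hG₀⟩ := exists_good M₀ L₀ ℵ₀ le_rfl hM₀.le hL₀.le (by
    have : #(M₀ → L₀) = ℵ₀ ^ ℵ₀ := by simp [hM₀, hL₀]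
    rw [this]
    exact Cardinal.self_le_power _ Cardinal.one_le_aleph0)
  obtain ⟨P, g, a, hP, hG⟩ := exists_good M L (l ^ κ) hθ (by rw [hM]; exact hkk)
    (by rw [hL]; exact hlk) (by
      have : #(M → L) = l ^ κ := by simp [hM, hL]
      rw [this])
  refine mem_of_semantic hθ (ELang L₁ L₂) (countable_ELang L₁ L₂ hL₁ hL₂) (M₀ ⊕ (L₀ ⊕ P₀))
    (M ⊕ (L ⊕ P)) (eStr L₁ L₂ g₀ a₀) (eStr L₁ L₂ g a) (sys3 g₀ a₀ g a S₁ S₂) ?_ ?_
    (sys3_bf hG₀ hG hS₁ hS₂) ?_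
  · simp [hM₀, hL₀, hP₀]
  · simp only [Cardinal.mk_sum, Cardinal.lift_id, hM, hL, hP]
    rw [Cardinal.add_eq_right hθ hlk, Cardinal.add_eq_right hθ hkk]
  · intro N sN T hT
    obtain ⟨M', L', P', sM', sL', T₁, T₂, hT₁, hT₂, hP', hN⟩ := upper hG₀ sN T hT
    have h1 : #M' ≤ κ := hle₁ M' sM' T₁ hT₁
    have h2 : #L' ≤ l := hle₂ L' sL' T₂ hT₂
    have h3 : #(M' → Option L') ≤ l ^ κ := by
      have : #(M' → Option L') = (#L' + 1) ^ #M' := by simp [Cardinal.mk_option]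
      rw [this]
      have h4 : #L' + 1 ≤ l := Cardinal.add_le_of_le hl0 h2 (Cardinal.one_le_aleph0.trans hl0)
      exact (Cardinal.power_le_power_right h4).trans
        (Cardinal.power_le_power_left (by
          intro h0; rw [h0] at h2l; simp at h2l) h1)
    have h5 : #(Set (M' × M')) ≤ l ^ κ := by
      have : #(Set (M' × M')) = 2 ^ (#M' * #M') := by simp [Cardinal.mk_set]
      rw [this]
      have h6 : #M' * #M' ≤ κ := Cardinal.mul_le_of_le hκ0 h1 h1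
      exact (Cardinal.power_le_power_left two_ne_zero h6).trans (Cardinal.power_le_power_right h2l)
    have h7 : #P' ≤ l ^ κ := hP'.trans (Cardinal.mul_le_of_le hθ h3 h5)
    exact hN.trans (Cardinal.add_le_of_le hθ (h1.trans hkk)
      (Cardinal.add_le_of_le hθ (h2.trans hlk) h7))

end Pool.Agent.MP_18f1d7_lc
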