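import Pool.Agent.MP_18f1d7_lc.LS

/-!
# MP_18f1d7_lc: recovering a structure on a definable part
-/

open Cardinal FirstOrder.Language.Structure

namespace Pool.Agent.MP_18f1d7_lc

universe u

theorem part {L : FirstOrder.Language.{0, 0}} {M₀ N₀ N' : Type u} [L.Structure M₀]
    {S : Set (Set (N₀ × N'))} (hS : IsSys S) (ι : M₀ → N₀) (hι : Function.Injective ι)
    (U : N' → Prop) (hU : ∀ F ∈ S, ∀ x y, (x, y) ∈ F → ((∃ m, x = ι m) ↔ U y))
    (R : ∀ n, L.Relations n → (Fin n → N') → Prop)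
    (hR : ∀ F ∈ S, ∀ (n : ℕ) (r : L.Relations n) (a : Fin n → M₀) (b : Fin n → N'),
      (∀ i, (ι (a i), b i) ∈ F) → (RelMap r a ↔ R n r b))
    (Q : ∀ n, L.Functions n → (Fin (n + 1) → N') → Prop)
    (hQ : ∀ F ∈ S, ∀ (n : ℕ) (f : L.Functions n) (a : Fin (n + 1) → M₀) (b : Fin (n + 1) → N'),
      (∀ i, (ι (a i), b i) ∈ F) →
      (funMap f (fun i : Fin n => a i.castSucc) = a (Fin.last n) ↔ Q n f b)) :
    ∃ (_ : L.Structure {y // U y}) (S' : Set (Set (M₀ × {y // U y}))), IsBF L S' := by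
  classical
  have hex : ∀ (n : ℕ) (f : L.Functions n) (b : Fin n → {y // U y}), ∃ y : {y // U y},
      Q n f (Fin.snoc (fun i => (b i : N')) (y : N') : Fin (n + 1) → N') := by
    intro n f b
    obtain ⟨F, hF, -, a0, ha0⟩ := hS.back_tuple hS.empty (fun i => (b i : N'))
    have h1 : ∀ i, ∃ m, a0 i = ι m := fun i => (hU F hF _ _ (ha0 i)).2 (b i).2
    choose a ha using h1
    obtain ⟨y, hy⟩ := hS.forth F hF (ι (funMap f a))
    have hUy : U y := (hU _ hy _ _ (Set.mem_insert _ _)).1 ⟨_, rfl⟩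
    refine ⟨⟨y, hUy⟩, ?_⟩
    refine (hQ _ hy n f (Fin.snoc a (funMap f a) : Fin (n + 1) → M₀) _ ?_).1 ?_
    · intro i
      refine Fin.lastCases ?_ (fun j => ?_) i
      · simp only [Fin.snoc_last]
        exact Set.mem_insert _ _
      · simp only [Fin.snoc_castSucc]
        rw [← ha]
        exact Set.mem_insert_of_mem _ (ha0 j)
    · simp only [Fin.snoc_castSucc, Fin.snoc_last]
  choose fm hfm using hex
  let str : L.Structure {y // U y} :=
    { funMap := fun {n} f b => fm n f b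
      RelMap := fun {n} r b => R n r fun i => (b i : N') }
  refine ⟨str, {F' | ∃ F ∈ S, F' = {p | (ι p.1, (p.2 : N')) ∈ F}}, ⟨?_, ?_, ?_, ?_⟩, ?_, ?_⟩
  · exact ⟨∅, hS.empty, by ext p; simp⟩
  · rintro _ ⟨F, hF, rfl⟩ x y x' y' h h'
    have := hS.inj F hF _ _ _ _ h h'
    rw [hι.eq_iff] at this
    rw [this, Subtype.ext_iff]
  · rintro _ ⟨F, hF, rfl⟩ x
    obtain ⟨y, hy⟩ := hS.forth F hF (ι x)
    have hUy : U y := (hU _ hy _ _ (Set.mem_insert _ _)).1 ⟨_, rfl⟩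
    refine ⟨⟨y, hUy⟩, _, hy, ?_⟩
    ext ⟨p, q⟩
    simp only [Set.mem_insert_iff, Set.mem_setOf_eq, Prod.mk.injEq, hι.eq_iff, Subtype.ext_iff]
  · rintro _ ⟨F, hF, rfl⟩ y
    obtain ⟨x0, hx0⟩ := hS.back F hF (y : N')
    obtain ⟨x, rfl⟩ := (hU _ hx0 _ _ (Set.mem_insert _ _)).2 y.2
    refine ⟨x, _, hx0, ?_⟩
    ext ⟨p, q⟩
    simp only [Set.mem_insert_iff, Set.mem_setOf_eq, Prod.mk.injEq, hι.eq_iff, Subtype.ext_iff]
  · rintro _ ⟨F, hF, rfl⟩ n r a b h
    exact hR F hF n r a _ h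
  · rintro _ ⟨F, hF, rfl⟩ n f a b x y h h'
    change _ ↔ fm n f b = y
    obtain ⟨x0, hx0⟩ := hS.back F hF (fm n f b : N')
    obtain ⟨z, rfl⟩ := (hU _ hx0 _ _ (Set.mem_insert _ _)).2 (fm n f b).2
    have h1 : funMap f a = z := by
      have := (hQ _ hx0 n f (Fin.snoc a z : Fin (n + 1) → M₀)
        (Fin.snoc (fun i => (b i : N')) (fm n f b : N') : Fin (n + 1) → N') (by
          intro i
          refine Fin.lastCases ?_ (fun j => ?_) i
          · simp only [Fin.snoc_last]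
            exact Set.mem_insert _ _
          · simp only [Fin.snoc_castSucc]
            exact Set.mem_insert_of_mem _ (h j))).2 (hfm n f b)
      simpa only [Fin.snoc_castSucc, Fin.snoc_last] using this
    have h2 := hS.inj _ hx0 (ι z) (fm n f b : N') (ι x) (y : N') (Set.mem_insert _ _)
      (Set.mem_insert_of_mem _ h')
    rw [hι.eq_iff, ← Subtype.ext_iff] at h2
    rw [h1]
    exact h2

end Pool.Agent.MP_18f1d7_lc
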