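import Pool.Agent.MP_18f1d7_lc.Sys

/-!
# MP_18f1d7_lc: Scott sentences of countable structures
-/

open Cardinal FirstOrder.Language.Structure

namespace Pool.Agent.MP_18f1d7_lc

universe u

variable {L : FirstOrder.Language.{0, 0}}

/-- a true formula -/
def top (L : FirstOrder.Language.{0, 0}) (n : ℕ) : Fml L n :=
  .all (.eq (FirstOrder.Language.Term.var (Fin.last n)) (FirstOrder.Language.Term.var (Fin.last n)))

theorem realize_top {N : Type u} [L.Structure N] {n : ℕ} (v : Fin n → N) :
    (top L n).Realize v := by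
  intro x
  rfl

/-- countable conjunctions -/
theorem exists_conj {ι : Type u} [Countable ι] {n : ℕ} (f : ι → Fml L n) :
    ∃ c : Fml L n, ∀ (N : Type u) [L.Structure N] (v : Fin n → N),
      c.Realize v ↔ ∀ i, (f i).Realize v := by
  rcases isEmpty_or_nonempty ι with h | h
  · refine ⟨top L n, fun N _ v => ?_⟩
    constructor
    · intro _ i; exact (h.false i).elim
    · intro _; exact realize_top v
  · obtain ⟨e, he⟩ := exists_surjective_nat ι
    refine ⟨.conj fun k => f (e k), fun N _ v => ?_⟩
    constructor
    · intro H i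
      obtain ⟨k, rfl⟩ := he i
      exact H k
    · intro H k
      exact H (e k)

/-- universal closure -/
def allN : (n : ℕ) → Fml L n → Fml L 0
  | 0, φ => φ
  | n + 1, φ => allN n (.all φ)

theorem realize_allN {N : Type u} [L.Structure N] {n : ℕ} (φ : Fml L n) :
    Models N (allN n φ) ↔ ∀ v : Fin n → N, φ.Realize v := by
  induction n with
  | zero =>
    constructor
    · intro h v
      have : v = Fin.elim0 := Subsingleton.elim _ _
      rw [this]; exact h
    · intro h; exact h _
  | succ n ih =>
    rw [allN, ih]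
    constructor
    · intro h v
      have := h (Fin.init v) (v (Fin.last n))
      rwa [Fin.snoc_init_self] at this
    · intro h v x
      exact h _

/-- implication -/
theorem exists_imp {n : ℕ} (φ ψ : Fml L n) :
    ∃ c : Fml L n, ∀ (N : Type u) [L.Structure N] (v : Fin n → N),
      c.Realize v ↔ (φ.Realize v → ψ.Realize v) := by
  obtain ⟨c, hc⟩ := exists_conj (ι := ULift.{u} Bool) (L := L) (n := n)
    (fun b => if b.down then φ else .neg ψ)
  refine ⟨.neg c, fun N _ v => ?_⟩
  change ¬ c.Realize v ↔ _
  rw [hc]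
  constructor
  · intro h hφ
    by_contra hψ
    apply h
    rintro ⟨b⟩
    cases b
    · exact hψ
    · exact hφ
  · intro h H
    exact H ⟨false⟩ (h (H ⟨true⟩))

section
variable {M : Type u} [L.Structure M]

/-- same type -/
def Eqv (L : FirstOrder.Language.{0, 0}) {M : Type u} [L.Structure M] {n : ℕ} (a a' : Fin n → M) :
    Prop := ∀ φ : Fml L n, φ.Realize a ↔ φ.Realize a'

theorem exists_chi [Countable M] {n : ℕ} (a : Fin n → M) :
    ∃ χ : Fml L n, χ.Realize a ∧ ∀ a' : Fin n → M, χ.Realize a' → Eqv L a a' := by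
  classical
  have h : ∀ a' : Fin n → M, ∃ θ : Fml L n, θ.Realize a ∧ (θ.Realize a' → Eqv L a a') := by
    intro a'
    by_cases h : Eqv L a a'
    · exact ⟨top L n, realize_top a, fun _ => h⟩
    · have h' : ∃ φ : Fml L n, ¬ (φ.Realize a ↔ φ.Realize a') := by
        by_contra hc
        push Not at hc
        exact h hc
      obtain ⟨φ, hφ⟩ := h'
      by_cases h1 : φ.Realize a
      · refine ⟨φ, h1, fun h2 => (hφ ⟨fun _ => h2, fun _ => h1⟩).elim⟩
      · refine ⟨.neg φ, h1, fun h2 => (hφ ⟨fun h3 => (h1 h3).elim, fun h3 => (h2 h3).elim⟩).elim⟩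
  choose θ hθ hθ' using h
  obtain ⟨c, hc⟩ := exists_conj θ
  refine ⟨c, (hc M a).2 fun a' => hθ a', fun a' h => hθ' a' ((hc M a').1 h a')⟩

/-- Scott's theorem: a countable structure has a Scott sentence. -/
theorem exists_scott (hL : Countable L.Symbols) [Countable M] :
    ∃ σ : Fml L 0, Models M σ ∧ ∀ (N : Type u) [L.Structure N], Models N σ →
      ∃ S : Set (Set (M × N)), IsBF L S := by
  classical
  have hF : Countable (Σ n, L.Functions n) := by
    have : Function.Injective (Sum.inl : (Σ n, L.Functions n) → L.Symbols) := Sum.inl_injective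
    exact this.countable
  have hR : Countable (Σ n, L.Relations n) := by
    have : Function.Injective (Sum.inr : (Σ n, L.Relations n) → L.Symbols) := Sum.inr_injective
    exact this.countable
  have hFn : ∀ n, Countable (L.Functions n) := fun n => by
    have : Function.Injective (Sigma.mk n : L.Functions n → (Σ n, L.Functions n)) :=
      sigma_mk_injective
    exact this.countable
  have hRn : ∀ n, Countable (L.Relations n) := fun n => by
    have : Function.Injective (Sigma.mk n : L.Relations n → (Σ n, L.Relations n)) :=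
      sigma_mk_injective
    exact this.countable
  choose χ hχ hχ' using fun (n : ℕ) (a : Fin n → M) => exists_chi (L := L) a
  -- existence of an extension
  have hex : ∀ (n : ℕ) (a : Fin n → M) (m : M), ∃ c : Fml L n,
      ∀ (N : Type u) [L.Structure N] (v : Fin n → N),
      c.Realize v ↔ ∃ y, (χ (n + 1) (Fin.snoc a m)).Realize (Fin.snoc v y : Fin (n + 1) → N) := by
    intro n a m
    refine ⟨.neg (.all (.neg (χ (n + 1) (Fin.snoc a m)))), fun N _ v => ?_⟩
    change (¬ ∀ y, ¬ _) ↔ _
    push Not
    rfl
  choose ex hex using hex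
  have hal : ∀ (n : ℕ) (a : Fin n → M), ∃ c : Fml L n,
      ∀ (N : Type u) [L.Structure N] (v : Fin n → N),
      c.Realize v ↔ ∀ y, ∃ m, (χ (n + 1) (Fin.snoc a m)).Realize (Fin.snoc v y : Fin (n + 1) → N) := by
    intro n a
    obtain ⟨d, hd⟩ := exists_conj (fun m : M => Fml.neg (χ (n + 1) (Fin.snoc a m)))
    refine ⟨.all (.neg d), fun N _ v => ?_⟩
    change (∀ y, ¬ _) ↔ _
    refine forall_congr' fun y => ?_
    rw [hd]
    change (¬ ∀ y, ¬ _) ↔ _
    push Not
    rfl
  choose al hal using hal
  -- atomic facts
  let At : ℕ → Type := fun n => (Fin n × Fin n) ⊕ (Σ k, L.Relations k × (Fin k → Fin n)) ⊕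
    (Σ k, L.Functions k × (Fin k → Fin n) × Fin n)
  have hAt : ∀ n, Countable (At n) := fun n => by
    dsimp only [At]; infer_instance
  let toF : ∀ n, At n → Fml L n := fun n x => match x with
    | .inl (i, j) => .eq (FirstOrder.Language.Term.var i) (FirstOrder.Language.Term.var j)
    | .inr (.inl ⟨_, r, s⟩) => .rel r (fun i => FirstOrder.Language.Term.var (s i))
    | .inr (.inr ⟨_, f, s, j⟩) =>
      .eq (FirstOrder.Language.Term.func f fun i => FirstOrder.Language.Term.var (s i))
        (FirstOrder.Language.Term.var j)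
  have hat : ∀ (n : ℕ) (a : Fin n → M), ∃ c : Fml L n,
      ∀ (N : Type u) [L.Structure N] (v : Fin n → N),
      c.Realize v ↔ ∀ x : At n, ((toF n x).Realize a ↔ (toF n x).Realize v) := by
    intro n a
    obtain ⟨d, hd⟩ := exists_conj (ι := ULift.{u} (At n)) (L := L) (n := n)
      (fun x => if (toF n x.down).Realize a then toF n x.down else .neg (toF n x.down))
    refine ⟨d, fun N _ v => ?_⟩
    rw [hd]
    constructor
    · intro H x
      have := H ⟨x⟩
      by_cases hx : (toF n x).Realize a
      · simp only [hx, if_true] at this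
        exact ⟨fun _ => this, fun _ => hx⟩
      · simp only [hx, if_false] at this
        exact ⟨fun h => (hx h).elim, fun h => (this h).elim⟩
    · rintro H ⟨x⟩
      by_cases hx : (toF n x).Realize a
      · simp only [hx, if_true]
        exact (H x).1 hx
      · simp only [hx, if_false]
        exact fun h => hx ((H x).2 h)
  choose at' hat using hat
  -- the good formulas
  have hgood : ∀ (n : ℕ) (a : Fin n → M), ∃ c : Fml L n,
      ∀ (N : Type u) [L.Structure N] (v : Fin n → N),
      c.Realize v ↔ ((χ n a).Realize v → (at' n a).Realize v ∧ (al n a).Realize v ∧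
        ∀ m, (ex n a m).Realize v) := by
    intro n a
    obtain ⟨d, hd⟩ := exists_conj (ι := Option (Option M)) (L := L) (n := n)
      (fun x => match x with
        | none => at' n a
        | some none => al n a
        | some (some m) => ex n a m)
    obtain ⟨c, hc⟩ := exists_imp (χ n a) d
    refine ⟨c, fun N _ v => ?_⟩
    rw [hc, hd]
    refine imp_congr_right fun _ => ?_
    constructor
    · intro H
      exact ⟨H none, H (some none), fun m => H (some (some m))⟩
    · rintro ⟨h1, h2, h3⟩ x
      rcases x with _ | _ | m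
      · exact h1
      · exact h2
      · exact h3 m
  choose good hgood using hgood
  have hcM : Countable (Σ n, Fin n → M) := by infer_instance
  obtain ⟨σ, hσ⟩ := exists_conj (ι := Option (Σ n, Fin n → M)) (L := L) (n := 0)
    (fun x => match x with
      | none => χ 0 Fin.elim0
      | some ⟨n, a⟩ => allN n (good n a))
  have hσ' : ∀ (N : Type u) [L.Structure N], Models N σ ↔
      ((χ 0 (Fin.elim0 : Fin 0 → M)).Realize (Fin.elim0 : Fin 0 → N)) ∧
      ∀ (n : ℕ) (a : Fin n → M) (v : Fin n → N), (χ n a).Realize v →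
        (at' n a).Realize v ∧ (al n a).Realize v ∧ ∀ m, (ex n a m).Realize v := by
    intro N _
    unfold Models
    rw [hσ]
    constructor
    · intro H
      refine ⟨H none, fun n a v => ?_⟩
      have := H (some ⟨n, a⟩)
      have h2 : Models N (allN n (good n a)) := this
      rw [realize_allN] at h2
      exact (hgood n a N v).1 (h2 v)
    · rintro ⟨h1, h2⟩ x
      rcases x with _ | ⟨n, a⟩
      · exact h1
      · change Models N (allN n (good n a))
        rw [realize_allN]
        intro v
        exact (hgood n a N v).2 (h2 n a v)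
  refine ⟨σ, ?_, ?_⟩
  · rw [hσ']
    refine ⟨hχ 0 _, fun n a v hv => ?_⟩
    have hE : Eqv L a v := hχ' n a v hv
    refine ⟨?_, ?_, ?_⟩
    · rw [hat]
      intro x
      exact hE _
    · rw [← hE, hal]
      intro y
      exact ⟨y, hχ _ _⟩
    · intro m
      rw [← hE, hex]
      exact ⟨m, hχ _ _⟩
  · intro N _ hN
    rw [hσ'] at hN
    obtain ⟨h0, h⟩ := hN
    refine ⟨{F | ∃ (n : ℕ) (a : Fin n → M) (b : Fin n → N), F = Set.range (fun i => (a i, b i)) ∧
      (χ n a).Realize b}, ⟨?_, ?_, ?_, ?_⟩, ?_, ?_⟩
    · refine ⟨0, Fin.elim0, Fin.elim0, ?_, h0⟩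
      ext x
      simp
    · rintro _ ⟨n, a, b, rfl, hb⟩ x y x' y' ⟨i, hi⟩ ⟨j, hj⟩
      simp only [Prod.mk.injEq] at hi hj
      obtain ⟨rfl, rfl⟩ := hi
      obtain ⟨rfl, rfl⟩ := hj
      exact ((hat n a N b).1 (h n a b hb).1) (.inl (i, j))
    · rintro _ ⟨n, a, b, rfl, hb⟩ x
      obtain ⟨y, hy⟩ := (hex n a x N b).1 ((h n a b hb).2.2 x)
      refine ⟨y, n + 1, Fin.snoc a x, Fin.snoc b y, ?_, hy⟩
      ext ⟨p, q⟩
      simp only [Set.mem_insert_iff, Set.mem_range, Prod.mk.injEq]
      constructor
      · rintro (⟨rfl, rfl⟩ | ⟨i, rfl, rfl⟩)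
        · exact ⟨Fin.last n, by simp, by simp⟩
        · exact ⟨i.castSucc, by simp, by simp⟩
      · rintro ⟨i, hi, hi'⟩
        revert hi hi'
        refine Fin.lastCases ?_ (fun j => ?_) i
        · intro hi hi'
          simp only [Fin.snoc_last] at hi hi'
          exact Or.inl ⟨hi.symm, hi'.symm⟩
        · intro hi hi'
          simp only [Fin.snoc_castSucc] at hi hi'
          exact Or.inr ⟨j, hi, hi'⟩
    · rintro _ ⟨n, a, b, rfl, hb⟩ y
      obtain ⟨x, hx⟩ := (hal n a N b).1 ((h n a b hb).2.1) y
      refine ⟨x, n + 1, Fin.snoc a x, Fin.snoc b y, ?_, hx⟩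
      ext ⟨p, q⟩
      simp only [Set.mem_insert_iff, Set.mem_range, Prod.mk.injEq]
      constructor
      · rintro (⟨rfl, rfl⟩ | ⟨i, rfl, rfl⟩)
        · exact ⟨Fin.last n, by simp, by simp⟩
        · exact ⟨i.castSucc, by simp, by simp⟩
      · rintro ⟨i, hi, hi'⟩
        revert hi hi'
        refine Fin.lastCases ?_ (fun j => ?_) i
        · intro hi hi'
          simp only [Fin.snoc_last] at hi hi'
          exact Or.inl ⟨hi.symm, hi'.symm⟩
        · intro hi hi'
          simp only [Fin.snoc_castSucc] at hi hi'
          exact Or.inr ⟨j, hi, hi'⟩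
    · rintro _ ⟨n, a, b, rfl, hb⟩ k r a' b' hab
      choose s hs using hab
      have ha' : a' = a ∘ s := by
        funext i
        have := hs i
        simp only [Prod.mk.injEq] at this
        exact this.1.symm
      have hb' : b' = b ∘ s := by
        funext i
        have := hs i
        simp only [Prod.mk.injEq] at this
        exact this.2.symm
      subst ha' hb'
      exact ((hat n a N b).1 (h n a b hb).1) (.inr (.inl ⟨k, r, s⟩))
    · rintro _ ⟨n, a, b, rfl, hb⟩ k f a' b' x y hab hxy
      choose s hs using hab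
      obtain ⟨j, hj⟩ := hxy
      simp only [Prod.mk.injEq] at hj
      obtain ⟨rfl, rfl⟩ := hj
      have ha' : a' = a ∘ s := by
        funext i
        have := hs i
        simp only [Prod.mk.injEq] at this
        exact this.1.symm
      have hb' : b' = b ∘ s := by
        funext i
        have := hs i
        simp only [Prod.mk.injEq] at this
        exact this.2.symm
      subst ha' hb'
      exact ((hat n a N b).1 (h n a b hb).1) (.inr (.inr ⟨k, f, s, j⟩))

end

end Pool.Agent.MP_18f1d7_lc
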