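import Mathlib

/-!
# MP_18f1d7_lc: the end-homogeneous tree bound
-/

open Cardinal

namespace Pool.Agent.MP_18f1d7_lc

universe u

namespace Path

variable {P M L : Type u} [LinearOrder P] [WellFoundedLT P]

/-- `y` belongs to the end-homogeneous path below `x`. -/
noncomputable def InS (g : P → P → M) (a : P → P → L) (x : P) : P → Prop :=
  (wellFounded_lt (α := P)).fix (fun y ih => y < x ∧
    ∀ (y' : P) (h : y' < y), ih y' h → (g y' y = g y' x ∧ a y y' = a x y'))

theorem inS_iff (g : P → P → M) (a : P → P → L) (x y : P) :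
    InS g a x y ↔ y < x ∧ ∀ y' < y, InS g a x y' → (g y' y = g y' x ∧ a y y' = a x y') := by
  unfold InS
  rw [WellFounded.fix_eq]

variable (g : P → P → M) (a : P → P → L)

theorem injOn (hsym : ∀ x y, x ≠ y → g x y = g y x)
    (hA : ∀ x y z, x ≠ y → x ≠ z → y ≠ z → g x y = g x z → g y z = g x z → a x z ≠ a y z)
    {x y y' : P} (hy : InS g a x y) (hy' : InS g a x y') (h : g y x = g y' x) : y = y' := by
  by_contra hne
  wlog hlt : y' < y generalizing y y'
  · exact this hy' hy h.symm (Ne.symm hne) (lt_of_le_of_ne (not_lt.1 hlt) hne)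
  obtain ⟨hyx, H⟩ := (inS_iff g a x y).1 hy
  obtain ⟨hy'x, -⟩ := (inS_iff g a x y').1 hy'
  obtain ⟨h1, h2⟩ := H y' hlt hy'
  refine hA x y y' hyx.ne' hy'x.ne' hne ?_ ?_ h2.symm
  · rw [hsym x y hyx.ne', hsym x y' hy'x.ne']; exact h
  · rw [hsym y y' hne, hsym x y' hy'x.ne']; exact h1

open Classical in
/-- the colouring part of the code -/
noncomputable def code1 (x : P) (m : M) : Option L :=
  if h : ∃ y, InS g a x y ∧ g y x = m then some (a x h.choose) else none

/-- the order part of the code -/
def code2 (x : P) : Set (M × M) :=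
  {p | ∃ y' y, InS g a x y' ∧ InS g a x y ∧ y' < y ∧ p = (g y' x, g y x)}

theorem code1_eq (hsym : ∀ x y, x ≠ y → g x y = g y x)
    (hA : ∀ x y z, x ≠ y → x ≠ z → y ≠ z → g x y = g x z → g y z = g x z → a x z ≠ a y z)
    {x y : P} (hy : InS g a x y) : code1 g a x (g y x) = some (a x y) := by
  have h : ∃ y', InS g a x y' ∧ g y' x = g y x := ⟨y, hy, rfl⟩
  rw [code1, dif_pos h]
  have := injOn g a hsym hA h.choose_spec.1 hy h.choose_spec.2
  rw [this]

theorem exists_of_code1 {x : P} {m : M} {l : L} (h : code1 g a x m = some l) :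
    ∃ y, InS g a x y ∧ g y x = m := by
  by_contra hc
  rw [code1, dif_neg hc] at h
  exact Option.some_ne_none _ h.symm

theorem code_inj (hsym : ∀ x y, x ≠ y → g x y = g y x)
    (hA : ∀ x y z, x ≠ y → x ≠ z → y ≠ z → g x y = g x z → g y z = g x z → a x z ≠ a y z)
    {x x' : P} (hlt : x < x') (h1 : code1 g a x = code1 g a x')
    (h2 : code2 g a x = code2 g a x') : False := by
  -- the paths coincide below `x`
  have key : ∀ y, y < x → (InS g a x y ↔ InS g a x' y) ∧
      (InS g a x y → g y x = g y x' ∧ a x y = a x' y) := by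
    intro y
    induction y using WellFoundedLT.induction with
    | ind y ih =>
      intro hyx
      have hiff : InS g a x y ↔ InS g a x' y := by
        rw [inS_iff, inS_iff g a x' y]
        constructor
        · rintro ⟨-, H⟩
          refine ⟨hyx.trans hlt, fun y' hy' hin => ?_⟩
          have hin' := (ih y' hy' (hy'.trans hyx)).1.2 hin
          have e := (ih y' hy' (hy'.trans hyx)).2 hin'
          have H' := H y' hy' hin'
          exact ⟨H'.1.trans e.1, H'.2.trans e.2⟩
        · rintro ⟨-, H⟩
          refine ⟨hyx, fun y' hy' hin' => ?_⟩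
          have hin := (ih y' hy' (hy'.trans hyx)).1.1 hin'
          have e := (ih y' hy' (hy'.trans hyx)).2 hin'
          have H' := H y' hy' hin
          exact ⟨H'.1.trans e.1.symm, H'.2.trans e.2.symm⟩
      refine ⟨hiff, fun hin => ?_⟩
      have hin' := hiff.1 hin
      -- colours
      have hc1 : code1 g a x' (g y x) = some (a x y) := by
        rw [← h1]; exact code1_eq g a hsym hA hin
      obtain ⟨z, hz, hzc⟩ := exists_of_code1 g a hc1
      have hzy : z = y := by
        by_contra hne
        rcases lt_or_gt_of_ne hne with hzlt | hylt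
        · -- z < y, so z in S_x with g z x = g z x' = g y x
          have hzx : InS g a x z := (ih z hzlt (hzlt.trans hyx)).1.2 hz
          have e := (ih z hzlt (hzlt.trans hyx)).2 hzx
          exact hne (injOn g a hsym hA hzx hin (e.1.trans hzc))
        · -- y < z: the pair (g y x', g z x') is in code2 x'
          have hp : (g y x', g z x') ∈ code2 g a x' := ⟨y, z, hin', hz, hylt, rfl⟩
          rw [← h2] at hp
          obtain ⟨w', w, hw', hw, hww, hpe⟩ := hp
          simp only [Prod.mk.injEq] at hpe
          have hwy : w = y := injOn g a hsym hA hw hin (hpe.2.symm.trans hzc)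
          subst hwy
          have hw'x' := (ih w' hww (hww.trans hyx)).1.1 hw'
          have e := (ih w' hww (hww.trans hyx)).2 hw'
          exact hww.ne (injOn g a hsym hA hw'x' hin' (e.1.symm.trans hpe.1.symm))
      subst hzy
      have hg : g z x = g z x' := hzc.symm
      refine ⟨hg, ?_⟩
      have hc2 := code1_eq g a hsym hA hz
      rw [hzc, hc1] at hc2
      exact Option.some_injective _ hc2
  -- `x` is on the path of `x'`
  have hx : InS g a x' x := by
    rw [inS_iff]
    refine ⟨hlt, fun y' hy' hin => ?_⟩
    have hin' := (key y' hy').1.2 hin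
    exact (key y' hy').2 hin'
  have hc := code1_eq g a hsym hA hx
  rw [← h1] at hc
  obtain ⟨y, hy, hyc⟩ := exists_of_code1 g a hc
  have hyx : y < x := ((inS_iff g a x y).1 hy).1
  have hy' := (key y hyx).1.1 hy
  have e := (key y hyx).2 hy
  exact hyx.ne (injOn g a hsym hA hy' hx (e.1.symm.trans hyc))

end Path

open Path in
/-- The bound on the number of points. -/
theorem card_points_le {P M L : Type u} (g : P → P → M) (a : P → P → L)
    (hsym : ∀ x y, x ≠ y → g x y = g y x)
    (hA : ∀ x y z, x ≠ y → x ≠ z → y ≠ z → g x y = g x z → g y z = g x z → a x z ≠ a y z) :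
    #P ≤ #(M → Option L) * #(Set (M × M)) := by
  obtain ⟨_, _⟩ := exists_wellOrder P
  have hinj : Function.Injective
      (fun x : P => ((code1 g a x, code2 g a x) : (M → Option L) × Set (M × M))) := by
    intro x x' h
    simp only [Prod.mk.injEq] at h
    by_contra hne
    rcases lt_or_gt_of_ne hne with hlt | hlt
    · exact code_inj g a hsym hA hlt h.1 h.2
    · exact code_inj g a hsym hA hlt h.1.symm h.2.symm
  have := Cardinal.mk_le_of_injective hinj
  rwa [Cardinal.mk_prod, Cardinal.lift_id, Cardinal.lift_id] at this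

end Pool.Agent.MP_18f1d7_lc
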