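import Pool.Agent.MP_18f1d7_lc.Ext
import Pool.Agent.MP_18f1d7_lc.Part
import Pool.Agent.MP_18f1d7_lc.Tree

/-!
# MP_18f1d7_lc: the three-sorted structures
-/

open Cardinal FirstOrder.Language.Structure

namespace Pool.Agent.MP_18f1d7_lc

universe u

/-- the relation symbols of the three-sorted language -/
inductive Rels (L₁ L₂ : FirstOrder.Language.{0, 0}) : ℕ → Type
  | r1 {n : ℕ} (r : L₁.Relations n) : Rels L₁ L₂ n
  | f1 {n : ℕ} (f : L₁.Functions n) : Rels L₁ L₂ (n + 1)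
  | r2 {n : ℕ} (r : L₂.Relations n) : Rels L₁ L₂ n
  | f2 {n : ℕ} (f : L₂.Functions n) : Rels L₁ L₂ (n + 1)
  | isM : Rels L₁ L₂ 1
  | isL : Rels L₁ L₂ 1
  | g : Rels L₁ L₂ 3
  | a : Rels L₁ L₂ 3

/-- the three-sorted (relational) language -/
def ELang (L₁ L₂ : FirstOrder.Language.{0, 0}) : FirstOrder.Language.{0, 0} where
  Functions := fun _ => Empty
  Relations := Rels L₁ L₂

theorem countable_ELang (L₁ L₂ : FirstOrder.Language.{0, 0}) (h₁ : Countable L₁.Symbols)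
    (h₂ : Countable L₂.Symbols) : Countable (ELang L₁ L₂).Symbols := by
  let enc : (ELang L₁ L₂).Symbols → (L₁.Symbols ⊕ L₂.Symbols) ⊕ Fin 4 := fun s => match s with
    | .inl ⟨_, f⟩ => f.elim
    | .inr ⟨_, .r1 r⟩ => .inl (.inl (.inr ⟨_, r⟩))
    | .inr ⟨_, .f1 f⟩ => .inl (.inl (.inl ⟨_, f⟩))
    | .inr ⟨_, .r2 r⟩ => .inl (.inr (.inr ⟨_, r⟩))
    | .inr ⟨_, .f2 f⟩ => .inl (.inr (.inl ⟨_, f⟩))
    | .inr ⟨_, .isM⟩ => .inr 0
    | .inr ⟨_, .isL⟩ => .inr 1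
    | .inr ⟨_, .g⟩ => .inr 2
    | .inr ⟨_, .a⟩ => .inr 3
  have henc : Function.Injective enc := by
    rintro (⟨_, f⟩ | ⟨n, r⟩) (⟨_, f'⟩ | ⟨n', r'⟩) h
    · exact f.elim
    · exact f.elim
    · exact f'.elim
    · cases r <;> cases r' <;> simp [enc] at h
      all_goals first
        | rfl
        | (obtain ⟨rfl, h⟩ := h; obtain rfl := eq_of_heq h; rfl)
  exact henc.countable

variable {P M L P' M' L' : Type u}

/-- the three-sorted structure -/
def eStr (L₁ L₂ : FirstOrder.Language.{0, 0}) [L₁.Structure M] [L₂.Structure L]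
    (g : P → P → M) (a : P → P → L) : (ELang L₁ L₂).Structure (M ⊕ (L ⊕ P)) where
  funMap := fun f => Empty.elim f
  RelMap := fun {_} r => match r with
    | .r1 r => fun x => ∃ y : Fin _ → M, (∀ i, x i = .inl (y i)) ∧ RelMap r y
    | .f1 f => fun x => ∃ y : Fin _ → M, (∀ i, x i = .inl (y i)) ∧
        funMap f (fun i : Fin _ => y i.castSucc) = y (Fin.last _)
    | .r2 r => fun x => ∃ y : Fin _ → L, (∀ i, x i = .inr (.inl (y i))) ∧ RelMap r y
    | .f2 f => fun x => ∃ y : Fin _ → L, (∀ i, x i = .inr (.inl (y i))) ∧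
        funMap f (fun i : Fin _ => y i.castSucc) = y (Fin.last _)
    | .isM => fun x => ∃ m, x 0 = .inl m
    | .isL => fun x => ∃ l, x 0 = .inr (.inl l)
    | .g => fun x => ∃ p q, p ≠ q ∧ x 0 = .inr (.inr p) ∧ x 1 = .inr (.inr q) ∧ x 2 = .inl (g p q)
    | .a => fun x => ∃ p q, p ≠ q ∧ x 0 = .inr (.inr p) ∧ x 1 = .inr (.inr q) ∧
        x 2 = .inr (.inl (a p q))

/-- the union of three partial maps -/
def lift3 (F₁ : Set (M × M')) (F₂ : Set (L × L')) (B : Set (P × P')) :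
    Set ((M ⊕ (L ⊕ P)) × (M' ⊕ (L' ⊕ P'))) := fun p => match p with
  | (.inl x, .inl y) => (x, y) ∈ F₁
  | (.inr (.inl x), .inr (.inl y)) => (x, y) ∈ F₂
  | (.inr (.inr x), .inr (.inr y)) => (x, y) ∈ B
  | _ => False

theorem lift3_mono {F₁ F₁' : Set (M × M')} {F₂ F₂' : Set (L × L')} {B B' : Set (P × P')}
    (h₁ : F₁ ⊆ F₁') (h₂ : F₂ ⊆ F₂') (h₃ : B ⊆ B') : lift3 F₁ F₂ B ⊆ lift3 F₁' F₂' B' := by
  rintro ⟨x | x | x, y | y | y⟩ h
  · exact h₁ h
  · exact h
  · exact h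
  · exact h
  · exact h₂ h
  · exact h
  · exact h
  · exact h
  · exact h₃ h

/-- the system on the three-sorted structures -/
def sys3 (g : P → P → M) (a : P → P → L) (g' : P' → P' → M') (a' : P' → P' → L')
    (S₁ : Set (Set (M × M'))) (S₂ : Set (Set (L × L'))) :
    Set (Set ((M ⊕ (L ⊕ P)) × (M' ⊕ (L' ⊕ P')))) :=
  {F | ∃ F₁ ∈ S₁, ∃ F₂ ∈ S₂, ∃ B, GoodB g a g' a' F₁ F₂ B ∧ F ⊆ lift3 F₁ F₂ B}

theorem sys3_forth {L₁ L₂ : FirstOrder.Language.{0, 0}} [L₁.Structure M] [L₂.Structure L]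
    [L₁.Structure M'] [L₂.Structure L'] [Nonempty M'] [Nonempty L']
    {g : P → P → M} {a : P → P → L} {g' : P' → P' → M'} {a' : P' → P' → L'}
    (hG : Good g a) (hG' : Good g' a') {S₁ : Set (Set (M × M'))} {S₂ : Set (Set (L × L'))}
    (hS₁ : IsBF L₁ S₁) (hS₂ : IsBF L₂ S₂) :
    ∀ F ∈ sys3 g a g' a' S₁ S₂, ∀ x, ∃ y, insert (x, y) F ∈ sys3 g a g' a' S₁ S₂ := by
  rintro F ⟨F₁, hF₁, F₂, hF₂, B, hB, hsub⟩ (x | x | p)
  · obtain ⟨y, hy⟩ := hS₁.forth F₁ hF₁ x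
    refine ⟨.inl y, _, hy, F₂, hF₂, B, hB.mono (Set.subset_insert _ _) le_rfl, ?_⟩
    refine Set.insert_subset ?_ (hsub.trans (lift3_mono (Set.subset_insert _ _) le_rfl le_rfl))
    exact Set.mem_insert _ _
  · obtain ⟨y, hy⟩ := hS₂.forth F₂ hF₂ x
    refine ⟨.inr (.inl y), F₁, hF₁, _, hy, B, hB.mono le_rfl (Set.subset_insert _ _), ?_⟩
    refine Set.insert_subset ?_ (hsub.trans (lift3_mono le_rfl (Set.subset_insert _ _) le_rfl))
    exact Set.mem_insert _ _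
  · obtain ⟨p', F₁', F₂', hF₁', hF₂', h1, h2, hB'⟩ :=
      exists_ext hG hG' hS₁.toIsSys hS₂.toIsSys hF₁ hF₂ hB p
    refine ⟨.inr (.inr p'), F₁', hF₁', F₂', hF₂', _, hB', ?_⟩
    refine Set.insert_subset ?_ (hsub.trans (lift3_mono h1 h2 (Set.subset_insert _ _)))
    exact Set.mem_insert _ _

theorem lift3_swap (F₁ : Set (M × M')) (F₂ : Set (L × L')) (B : Set (P × P')) :
    Prod.swap ⁻¹' (lift3 F₁ F₂ B) =
      lift3 (Prod.swap ⁻¹' F₁) (Prod.swap ⁻¹' F₂) (Prod.swap ⁻¹' B) := by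
  ext ⟨x | x | x, y | y | y⟩ <;> rfl

theorem sys3_bf {L₁ L₂ : FirstOrder.Language.{0, 0}} [L₁.Structure M] [L₂.Structure L]
    [L₁.Structure M'] [L₂.Structure L'] [Nonempty M'] [Nonempty L'] [Nonempty M] [Nonempty L]
    {g : P → P → M} {a : P → P → L} {g' : P' → P' → M'} {a' : P' → P' → L'}
    (hG : Good g a) (hG' : Good g' a') {S₁ : Set (Set (M × M'))} {S₂ : Set (Set (L × L'))}
    (hS₁ : IsBF L₁ S₁) (hS₂ : IsBF L₂ S₂) :
    @IsBF (ELang L₁ L₂) _ _ (eStr L₁ L₂ g a) (eStr L₁ L₂ g' a') (sys3 g a g' a' S₁ S₂) := by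
  letI : (ELang L₁ L₂).Structure (M ⊕ (L ⊕ P)) := eStr L₁ L₂ g a
  letI : (ELang L₁ L₂).Structure (M' ⊕ (L' ⊕ P')) := eStr L₁ L₂ g' a'
  refine ⟨⟨?_, ?_, ?_, ?_⟩, ?_, ?_⟩
  · exact ⟨∅, hS₁.empty, ∅, hS₂.empty, ∅, ⟨Set.finite_empty, by simp, by simp⟩,
      Set.empty_subset _⟩
  · rintro F ⟨F₁, hF₁, F₂, hF₂, B, hB, hsub⟩ x y x' y' h h'
    have h := hsub h
    have h' := hsub h'
    rcases x with x | x | x <;> rcases y with y | y | y <;> (try exact h.elim) <;>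
      rcases x' with x' | x' | x' <;> rcases y' with y' | y' | y' <;> (try exact h'.elim)
    · simp only [Sum.inl.injEq]
      exact hS₁.inj F₁ hF₁ _ _ _ _ h h'
    · simp
    · simp
    · simp
    · simp only [Sum.inr.injEq, Sum.inl.injEq]
      exact hS₂.inj F₂ hF₂ _ _ _ _ h h'
    · simp
    · simp
    · simp
    · simp only [Sum.inr.injEq]
      exact hB.inj _ _ _ _ h h'
  · exact sys3_forth hG hG' hS₁ hS₂
  · intro F hF y
    obtain ⟨F₁, hF₁, F₂, hF₂, B, hB, hsub⟩ := hF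
    have hmem : Prod.swap ⁻¹' F ∈ sys3 g' a' g a {F : Set (M' × M) | Prod.swap ⁻¹' F ∈ S₁}
        {F : Set (L' × L) | Prod.swap ⁻¹' F ∈ S₂} := by
      refine ⟨Prod.swap ⁻¹' F₁, ?_, Prod.swap ⁻¹' F₂, ?_, Prod.swap ⁻¹' B, hB.swap, ?_⟩
      · change Prod.swap ⁻¹' (Prod.swap ⁻¹' F₁) ∈ S₁
        rw [← Set.preimage_comp, Prod.swap_swap_eq]
        exact hF₁
      · change Prod.swap ⁻¹' (Prod.swap ⁻¹' F₂) ∈ S₂
        rw [← Set.preimage_comp, Prod.swap_swap_eq]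
        exact hF₂
      · rw [← lift3_swap]
        exact Set.preimage_mono hsub
    obtain ⟨x, F₁', hF₁', F₂', hF₂', B', hB', hsub'⟩ :=
      sys3_forth hG' hG hS₁.symm hS₂.symm _ hmem y
    refine ⟨x, Prod.swap ⁻¹' F₁', hF₁', Prod.swap ⁻¹' F₂', hF₂', Prod.swap ⁻¹' B', hB'.swap, ?_⟩
    rw [← lift3_swap]
    have : insert (x, y) F = Prod.swap ⁻¹' (insert (y, x) (Prod.swap ⁻¹' F)) := by
      ext ⟨p, q⟩
      simp [and_comm]
    rw [this]
    exact Set.preimage_mono hsub'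
  · rintro F ⟨F₁, hF₁, F₂, hF₂, B, hB, hsub⟩ n r x y hxy
    have hl : ∀ i, (x i, y i) ∈ lift3 F₁ F₂ B := fun i => hsub (hxy i)
    -- the sorts correspond
    have hM1 : ∀ i m, x i = .inl m → ∃ m', y i = .inl m' ∧ (m, m') ∈ F₁ := by
      intro i m hi
      have := hl i
      rw [hi] at this
      rcases hy : y i with m' | m' | m'
      · rw [hy] at this; exact ⟨m', rfl, this⟩
      · rw [hy] at this; exact this.elim
      · rw [hy] at this; exact this.elim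
    have hM2 : ∀ i m', y i = .inl m' → ∃ m, x i = .inl m ∧ (m, m') ∈ F₁ := by
      intro i m hi
      have := hl i
      rw [hi] at this
      rcases hy : x i with m' | m' | m'
      · rw [hy] at this; exact ⟨m', rfl, this⟩
      · rw [hy] at this; exact this.elim
      · rw [hy] at this; exact this.elim
    have hL1 : ∀ i m, x i = .inr (.inl m) → ∃ m', y i = .inr (.inl m') ∧ (m, m') ∈ F₂ := by
      intro i m hi
      have := hl i
      rw [hi] at this
      rcases hy : y i with m' | m' | m'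
      · rw [hy] at this; exact this.elim
      · rw [hy] at this; exact ⟨m', rfl, this⟩
      · rw [hy] at this; exact this.elim
    have hL2 : ∀ i m', y i = .inr (.inl m') → ∃ m, x i = .inr (.inl m) ∧ (m, m') ∈ F₂ := by
      intro i m hi
      have := hl i
      rw [hi] at this
      rcases hy : x i with m' | m' | m'
      · rw [hy] at this; exact this.elim
      · rw [hy] at this; exact ⟨m', rfl, this⟩
      · rw [hy] at this; exact this.elim
    have hP1 : ∀ i m, x i = .inr (.inr m) → ∃ m', y i = .inr (.inr m') ∧ (m, m') ∈ B := by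
      intro i m hi
      have := hl i
      rw [hi] at this
      rcases hy : y i with m' | m' | m'
      · rw [hy] at this; exact this.elim
      · rw [hy] at this; exact this.elim
      · rw [hy] at this; exact ⟨m', rfl, this⟩
    have hP2 : ∀ i m', y i = .inr (.inr m') → ∃ m, x i = .inr (.inr m) ∧ (m, m') ∈ B := by
      intro i m hi
      have := hl i
      rw [hi] at this
      rcases hy : x i with m' | m' | m'
      · rw [hy] at this; exact this.elim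
      · rw [hy] at this; exact this.elim
      · rw [hy] at this; exact ⟨m', rfl, this⟩
    cases r with
    | r1 r =>
      constructor
      · rintro ⟨z, hz, hr⟩
        choose z' hz' hzz using fun i => hM1 i (z i) (hz i)
        exact ⟨z', hz', (hS₁.rel F₁ hF₁ n r z z' hzz).1 hr⟩
      · rintro ⟨z, hz, hr⟩
        choose z' hz' hzz using fun i => hM2 i (z i) (hz i)
        exact ⟨z', hz', (hS₁.rel F₁ hF₁ n r z' z hzz).2 hr⟩
    | f1 f =>
      constructor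
      · rintro ⟨z, hz, hr⟩
        choose z' hz' hzz using fun i => hM1 i (z i) (hz i)
        exact ⟨z', hz', (hS₁.fn F₁ hF₁ _ f _ _ _ _ (fun i => hzz _) (hzz _)).1 hr⟩
      · rintro ⟨z, hz, hr⟩
        choose z' hz' hzz using fun i => hM2 i (z i) (hz i)
        exact ⟨z', hz', (hS₁.fn F₁ hF₁ _ f _ _ _ _ (fun i => hzz _) (hzz _)).2 hr⟩
    | r2 r =>
      constructor
      · rintro ⟨z, hz, hr⟩
        choose z' hz' hzz using fun i => hL1 i (z i) (hz i)
        exact ⟨z', hz', (hS₂.rel F₂ hF₂ n r z z' hzz).1 hr⟩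
      · rintro ⟨z, hz, hr⟩
        choose z' hz' hzz using fun i => hL2 i (z i) (hz i)
        exact ⟨z', hz', (hS₂.rel F₂ hF₂ n r z' z hzz).2 hr⟩
    | f2 f =>
      constructor
      · rintro ⟨z, hz, hr⟩
        choose z' hz' hzz using fun i => hL1 i (z i) (hz i)
        exact ⟨z', hz', (hS₂.fn F₂ hF₂ _ f _ _ _ _ (fun i => hzz _) (hzz _)).1 hr⟩
      · rintro ⟨z, hz, hr⟩
        choose z' hz' hzz using fun i => hL2 i (z i) (hz i)
        exact ⟨z', hz', (hS₂.fn F₂ hF₂ _ f _ _ _ _ (fun i => hzz _) (hzz _)).2 hr⟩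
    | isM =>
      constructor
      · rintro ⟨m, hm⟩
        obtain ⟨m', hm', -⟩ := hM1 0 m hm
        exact ⟨m', hm'⟩
      · rintro ⟨m, hm⟩
        obtain ⟨m', hm', -⟩ := hM2 0 m hm
        exact ⟨m', hm'⟩
    | isL =>
      constructor
      · rintro ⟨m, hm⟩
        obtain ⟨m', hm', -⟩ := hL1 0 m hm
        exact ⟨m', hm'⟩
      · rintro ⟨m, hm⟩
        obtain ⟨m', hm', -⟩ := hL2 0 m hm
        exact ⟨m', hm'⟩
    | g =>
      constructor
      · rintro ⟨p, q, hpq, h0, h1, h2⟩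
        obtain ⟨p', hp', hp⟩ := hP1 0 p h0
        obtain ⟨q', hq', hq⟩ := hP1 1 q h1
        obtain ⟨m', hm', hm⟩ := hM1 2 _ h2
        refine ⟨p', q', fun h => hpq ((hB.inj _ _ _ _ hp hq).2 h), hp', hq', ?_⟩
        rw [hm']
        have := (hS₁.inj F₁ hF₁ _ _ _ _ hm (hB.val _ _ _ _ hp hq hpq).1).1 rfl
        rw [this]
      · rintro ⟨p', q', hpq', h0, h1, h2⟩
        obtain ⟨p, hp', hp⟩ := hP2 0 p' h0
        obtain ⟨q, hq', hq⟩ := hP2 1 q' h1
        obtain ⟨m, hm', hm⟩ := hM2 2 _ h2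
        have hpq : p ≠ q := fun h => hpq' ((hB.inj _ _ _ _ hp hq).1 h)
        refine ⟨p, q, hpq, hp', hq', ?_⟩
        rw [hm']
        have := (hS₁.inj F₁ hF₁ _ _ _ _ hm (hB.val _ _ _ _ hp hq hpq).1).2 rfl
        rw [this]
    | a =>
      constructor
      · rintro ⟨p, q, hpq, h0, h1, h2⟩
        obtain ⟨p', hp', hp⟩ := hP1 0 p h0
        obtain ⟨q', hq', hq⟩ := hP1 1 q h1
        obtain ⟨m', hm', hm⟩ := hL1 2 _ h2
        refine ⟨p', q', fun h => hpq ((hB.inj _ _ _ _ hp hq).2 h), hp', hq', ?_⟩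
        rw [hm']
        have := (hS₂.inj F₂ hF₂ _ _ _ _ hm (hB.val _ _ _ _ hp hq hpq).2).1 rfl
        rw [this]
      · rintro ⟨p', q', hpq', h0, h1, h2⟩
        obtain ⟨p, hp', hp⟩ := hP2 0 p' h0
        obtain ⟨q, hq', hq⟩ := hP2 1 q' h1
        obtain ⟨m, hm', hm⟩ := hL2 2 _ h2
        have hpq : p ≠ q := fun h => hpq' ((hB.inj _ _ _ _ hp hq).1 h)
        refine ⟨p, q, hpq, hp', hq', ?_⟩
        rw [hm']
        have := (hS₂.inj F₂ hF₂ _ _ _ _ hm (hB.val _ _ _ _ hp hq hpq).2).2 rfl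
        rw [this]
  · intro F hF n f
    exact Empty.elim f

end Pool.Agent.MP_18f1d7_lc
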