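import Pool.Agent.MP_18f1d7_lc.Defs

/-!
# MP_18f1d7_lc: back-and-forth systems
-/

open Cardinal FirstOrder.Language.Structure

namespace Pool.Agent.MP_18f1d7_lc

universe u v

/-- A back-and-forth system between the sets `M` and `N`. -/
structure IsSys {M : Type u} {N : Type v} (S : Set (Set (M × N))) : Prop where
  empty : ∅ ∈ S
  inj : ∀ F ∈ S, ∀ x y x' y', (x, y) ∈ F → (x', y') ∈ F → (x = x' ↔ y = y')
  forth : ∀ F ∈ S, ∀ x, ∃ y, insert (x, y) F ∈ S
  back : ∀ F ∈ S, ∀ y, ∃ x, insert (x, y) F ∈ S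

/-- A back-and-forth system between the `L`-structures `M` and `N`. -/
structure IsBF (L : FirstOrder.Language.{0, 0}) {M : Type u} {N : Type v} [L.Structure M]
    [L.Structure N] (S : Set (Set (M × N))) : Prop extends IsSys S where
  rel : ∀ F ∈ S, ∀ (n : ℕ) (r : L.Relations n) (a : Fin n → M) (b : Fin n → N),
    (∀ i, (a i, b i) ∈ F) → (RelMap r a ↔ RelMap r b)
  fn : ∀ F ∈ S, ∀ (n : ℕ) (f : L.Functions n) (a : Fin n → M) (b : Fin n → N) (x : M) (y : N),
    (∀ i, (a i, b i) ∈ F) → (x, y) ∈ F → (funMap f a = x ↔ funMap f b = y)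

namespace IsSys

variable {M : Type u} {N : Type v} {S : Set (Set (M × N))}

theorem ext_finset (hS : IsSys S) (X : Finset M) : ∀ F ∈ S, ∃ F' ∈ S, F ⊆ F' ∧
    ∀ x ∈ X, ∃ y, (x, y) ∈ F' := by
  classical
  induction X using Finset.induction_on with
  | empty => intro F hF; exact ⟨F, hF, le_rfl, by simp⟩
  | insert a X ha ih =>
    intro F hF
    obtain ⟨F', hF', hsub, hX⟩ := ih F hF
    obtain ⟨y, hy⟩ := hS.forth F' hF' a
    refine ⟨_, hy, hsub.trans (Set.subset_insert _ _), ?_⟩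
    intro x hx
    rcases Finset.mem_insert.1 hx with rfl | hx
    · exact ⟨y, Set.mem_insert _ _⟩
    · obtain ⟨z, hz⟩ := hX x hx
      exact ⟨z, Set.mem_insert_of_mem _ hz⟩

theorem back_finset (hS : IsSys S) (Y : Finset N) : ∀ F ∈ S, ∃ F' ∈ S, F ⊆ F' ∧
    ∀ y ∈ Y, ∃ x, (x, y) ∈ F' := by
  classical
  induction Y using Finset.induction_on with
  | empty => intro F hF; exact ⟨F, hF, le_rfl, by simp⟩
  | insert a X ha ih =>
    intro F hF
    obtain ⟨F', hF', hsub, hX⟩ := ih F hF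
    obtain ⟨y, hy⟩ := hS.back F' hF' a
    refine ⟨_, hy, hsub.trans (Set.subset_insert _ _), ?_⟩
    intro x hx
    rcases Finset.mem_insert.1 hx with rfl | hx
    · exact ⟨y, Set.mem_insert _ _⟩
    · obtain ⟨z, hz⟩ := hX x hx
      exact ⟨z, Set.mem_insert_of_mem _ hz⟩

theorem ext_tuple (hS : IsSys S) {F : Set (M × N)} (hF : F ∈ S) {n : ℕ} (a : Fin n → M) :
    ∃ F' ∈ S, F ⊆ F' ∧ ∃ b : Fin n → N, ∀ i, (a i, b i) ∈ F' := by
  classical
  obtain ⟨F', hF', hsub, h⟩ := hS.ext_finset (Finset.univ.image a) F hF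
  have h' : ∀ i, ∃ y, (a i, y) ∈ F' := fun i => h (a i) (by simp)
  choose b hb using h'
  exact ⟨F', hF', hsub, b, hb⟩

theorem back_tuple (hS : IsSys S) {F : Set (M × N)} (hF : F ∈ S) {n : ℕ} (b : Fin n → N) :
    ∃ F' ∈ S, F ⊆ F' ∧ ∃ a : Fin n → M, ∀ i, (a i, b i) ∈ F' := by
  classical
  obtain ⟨F', hF', hsub, h⟩ := hS.back_finset (Finset.univ.image b) F hF
  have h' : ∀ i, ∃ x, (x, b i) ∈ F' := fun i => h (b i) (by simp)
  choose a ha using h'
  exact ⟨F', hF', hsub, a, ha⟩

end IsSys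

namespace IsBF

variable {L : FirstOrder.Language.{0, 0}} {M : Type u} {N : Type v} [L.Structure M]
  [L.Structure N] {S : Set (Set (M × N))}

theorem symm (hS : IsBF L S) : IsBF L {F : Set (N × M) | Prod.swap ⁻¹' F ∈ S} := by
  refine ⟨⟨?_, ?_, ?_, ?_⟩, ?_, ?_⟩
  · simpa using hS.empty
  · intro F hF x y x' y' h h'
    exact (hS.inj _ hF y x y' x' h h').symm
  · intro F hF x
    obtain ⟨y, hy⟩ := hS.back _ hF x
    refine ⟨y, ?_⟩
    have : Prod.swap ⁻¹' (insert (x, y) F) = insert (y, x) (Prod.swap ⁻¹' F) := by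
      ext ⟨p, q⟩
      simp [and_comm]
    rw [Set.mem_setOf_eq, this]
    exact hy
  · intro F hF y
    obtain ⟨x, hx⟩ := hS.forth _ hF y
    refine ⟨x, ?_⟩
    have : Prod.swap ⁻¹' (insert (x, y) F) = insert (y, x) (Prod.swap ⁻¹' F) := by
      ext ⟨p, q⟩
      simp [and_comm]
    rw [Set.mem_setOf_eq, this]
    exact hx
  · intro F hF n r a b h
    exact (hS.rel _ hF n r b a h).symm
  · intro F hF n f a b x y h h'
    exact (hS.fn _ hF n f b a y x h h').symm

theorem ext_term (hS : IsBF L S) {n : ℕ} (a : Fin n → M) (b : Fin n → N) (t : L.Term (Fin n)) :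
    ∀ F ∈ S, (∀ i, (a i, b i) ∈ F) → ∃ F' ∈ S, F ⊆ F' ∧ (t.realize a, t.realize b) ∈ F' := by
  classical
  induction t with
  | var i => intro F hF h; exact ⟨F, hF, le_rfl, h i⟩
  | func f ts ih =>
    rename_i k
    intro F hF h
    have key : ∀ s : Finset (Fin k), ∃ F' ∈ S, F ⊆ F' ∧
        ∀ i ∈ s, ((ts i).realize a, (ts i).realize b) ∈ F' := by
      intro s
      induction s using Finset.induction_on with
      | empty => exact ⟨F, hF, le_rfl, by simp⟩
      | insert j s hj ihs =>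
        obtain ⟨F', hF', hsub, hs⟩ := ihs
        obtain ⟨F'', hF'', hsub', hj'⟩ := ih j F' hF' (fun i => hsub (h i))
        refine ⟨F'', hF'', hsub.trans hsub', ?_⟩
        intro i hi
        rcases Finset.mem_insert.1 hi with rfl | hi
        · exact hj'
        · exact hsub' (hs i hi)
    obtain ⟨F', hF', hsub, hall⟩ := key Finset.univ
    obtain ⟨y, hy⟩ := hS.forth F' hF' (funMap f fun i => (ts i).realize a)
    refine ⟨_, hy, hsub.trans (Set.subset_insert _ _), ?_⟩
    have := (hS.fn _ hy k f (fun i => (ts i).realize a) (fun i => (ts i).realize b) _ y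
      (fun i => Set.mem_insert_of_mem _ (hall i (Finset.mem_univ i))) (Set.mem_insert _ _)).1 rfl
    simp only [FirstOrder.Language.Term.realize_func]
    rw [this]
    exact Set.mem_insert _ _

theorem ext_terms (hS : IsBF L S) {n k : ℕ} (a : Fin n → M) (b : Fin n → N)
    (ts : Fin k → L.Term (Fin n)) (F : Set (M × N)) (hF : F ∈ S) (h : ∀ i, (a i, b i) ∈ F) :
    ∃ F' ∈ S, F ⊆ F' ∧ ∀ i, ((ts i).realize a, (ts i).realize b) ∈ F' := by
  classical
  have key : ∀ s : Finset (Fin k), ∃ F' ∈ S, F ⊆ F' ∧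
      ∀ i ∈ s, ((ts i).realize a, (ts i).realize b) ∈ F' := by
    intro s
    induction s using Finset.induction_on with
    | empty => exact ⟨F, hF, le_rfl, by simp⟩
    | insert j s hj ihs =>
      obtain ⟨F', hF', hsub, hs⟩ := ihs
      obtain ⟨F'', hF'', hsub', hj'⟩ := hS.ext_term a b (ts j) F' hF' (fun i => hsub (h i))
      refine ⟨F'', hF'', hsub.trans hsub', ?_⟩
      intro i hi
      rcases Finset.mem_insert.1 hi with rfl | hi
      · exact hj'
      · exact hsub' (hs i hi)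
  obtain ⟨F', hF', hsub, hall⟩ := key Finset.univ
  exact ⟨F', hF', hsub, fun i => hall i (Finset.mem_univ i)⟩

/-- Karp: corresponding tuples satisfy the same formulas. -/
theorem realize_iff (hS : IsBF L S) {n : ℕ} (φ : Fml L n) :
    ∀ (a : Fin n → M) (b : Fin n → N) (F : Set (M × N)), F ∈ S → (∀ i, (a i, b i) ∈ F) →
      (φ.Realize a ↔ φ.Realize b) := by
  induction φ with
  | eq s t =>
    intro a b F hF h
    obtain ⟨F', hF', hsub, hs⟩ := hS.ext_term a b s F hF h
    obtain ⟨F'', hF'', hsub', ht⟩ := hS.ext_term a b t F' hF' (fun i => hsub (h i))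
    exact hS.inj F'' hF'' _ _ _ _ (hsub' hs) ht
  | rel r ts =>
    intro a b F hF h
    obtain ⟨F', hF', -, hs⟩ := hS.ext_terms a b ts F hF h
    exact hS.rel F' hF' _ r _ _ hs
  | neg φ ih =>
    intro a b F hF h
    exact not_congr (ih a b F hF h)
  | conj φ ih =>
    intro a b F hF h
    exact forall_congr' fun i => ih i a b F hF h
  | all φ ih =>
    intro a b F hF h
    constructor
    · intro H y
      obtain ⟨x, hx⟩ := hS.back F hF y
      refine (ih _ _ _ hx ?_).1 (H x)
      intro i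
      refine Fin.lastCases ?_ (fun j => ?_) i
      · simp
      · simp only [Fin.snoc_castSucc]
        exact Set.mem_insert_of_mem _ (h j)
    · intro H x
      obtain ⟨y, hy⟩ := hS.forth F hF x
      refine (ih _ _ _ hy ?_).2 (H y)
      intro i
      refine Fin.lastCases ?_ (fun j => ?_) i
      · simp
      · simp only [Fin.snoc_castSucc]
        exact Set.mem_insert_of_mem _ (h j)

theorem models_iff (hS : IsBF L S) (φ : Fml L 0) : Models M φ ↔ Models N φ :=
  hS.realize_iff φ _ _ ∅ hS.empty (fun i => i.elim0)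

end IsBF

end Pool.Agent.MP_18f1d7_lc
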