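import Pool.Agent.MP_18f1d7_lc.Struct

/-!
# MP_18f1d7_lc: the upper bound for structures linked to a three-sorted structure
-/

open Cardinal FirstOrder.Language.Structure

namespace Pool.Agent.MP_18f1d7_lc

universe u

theorem upper {L₁ L₂ : FirstOrder.Language.{0, 0}} {M₀ L₀ P₀ N' : Type u} [L₁.Structure M₀]
    [L₂.Structure L₀] {g : P₀ → P₀ → M₀} {a : P₀ → P₀ → L₀} (hG : Good g a)
    (sN' : (ELang L₁ L₂).Structure N') (S : Set (Set ((M₀ ⊕ (L₀ ⊕ P₀)) × N')))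
    (hS : @IsBF (ELang L₁ L₂) _ _ (eStr L₁ L₂ g a) sN' S) [Nonempty M₀] [Nonempty L₀] :
    ∃ (M' L' P' : Type u) (_ : L₁.Structure M') (_ : L₂.Structure L')
      (S₁ : Set (Set (M₀ × M'))) (S₂ : Set (Set (L₀ × L'))), IsBF L₁ S₁ ∧ IsBF L₂ S₂ ∧
      #P' ≤ #(M' → Option L') * #(Set (M' × M')) ∧ #N' ≤ #M' + (#L' + #P') := by
  classical
  let s0 : (ELang L₁ L₂).Structure (M₀ ⊕ (L₀ ⊕ P₀)) := eStr L₁ L₂ g a
  let UM : N' → Prop := fun y => RelMap (L := ELang L₁ L₂) (Rels.isM : (ELang L₁ L₂).Relations 1) ![y]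
  let UL : N' → Prop := fun y => RelMap (L := ELang L₁ L₂) (Rels.isL : (ELang L₁ L₂).Relations 1) ![y]
  have hUM : ∀ F ∈ S, ∀ x y, (x, y) ∈ F → ((∃ m, x = Sum.inl m) ↔ UM y) := by
    intro F hF x y hxy
    have := hS.rel F hF 1 (Rels.isM : (ELang L₁ L₂).Relations 1) ![x] ![y] (by
      intro i; fin_cases i; exact hxy)
    exact this
  have hUL : ∀ F ∈ S, ∀ x y, (x, y) ∈ F → ((∃ m, x = Sum.inr (Sum.inl m)) ↔ UL y) := by
    intro F hF x y hxy
    have := hS.rel F hF 1 (Rels.isL : (ELang L₁ L₂).Relations 1) ![x] ![y] (by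
      intro i; fin_cases i; exact hxy)
    exact this
  obtain ⟨sM, S₁, hS₁⟩ := part (L := L₁) hS.toIsSys (Sum.inl : M₀ → M₀ ⊕ (L₀ ⊕ P₀))
    Sum.inl_injective UM hUM
    (fun n r b => RelMap (L := ELang L₁ L₂) (Rels.r1 r : (ELang L₁ L₂).Relations n) b)
    (by
      intro F hF n r x b hxb
      have := hS.rel F hF n (Rels.r1 r : (ELang L₁ L₂).Relations n) (fun i => Sum.inl (x i)) b hxb
      rw [← this]
      constructor
      · intro h; exact ⟨x, fun _ => rfl, h⟩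
      · rintro ⟨y, hy, h⟩
        have : x = y := by
          funext i
          exact Sum.inl_injective (hy i)
        rw [this]; exact h)
    (fun n f b => RelMap (L := ELang L₁ L₂) (Rels.f1 f : (ELang L₁ L₂).Relations (n + 1)) b)
    (by
      intro F hF n f x b hxb
      have := hS.rel F hF (n + 1) (Rels.f1 f : (ELang L₁ L₂).Relations (n + 1))
        (fun i => Sum.inl (x i)) b hxb
      rw [← this]
      constructor
      · intro h; exact ⟨x, fun _ => rfl, h⟩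
      · rintro ⟨y, hy, h⟩
        have : x = y := by
          funext i
          exact Sum.inl_injective (hy i)
        rw [this]; exact h)
  obtain ⟨sL, S₂, hS₂⟩ := part (L := L₂) hS.toIsSys
    (fun l => Sum.inr (Sum.inl l) : L₀ → M₀ ⊕ (L₀ ⊕ P₀))
    (fun x y h => Sum.inl_injective (Sum.inr_injective h)) UL hUL
    (fun n r b => RelMap (L := ELang L₁ L₂) (Rels.r2 r : (ELang L₁ L₂).Relations n) b)
    (by
      intro F hF n r x b hxb
      have := hS.rel F hF n (Rels.r2 r : (ELang L₁ L₂).Relations n)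
        (fun i => Sum.inr (Sum.inl (x i))) b hxb
      rw [← this]
      constructor
      · intro h; exact ⟨x, fun _ => rfl, h⟩
      · rintro ⟨y, hy, h⟩
        have : x = y := by
          funext i
          exact Sum.inl_injective (Sum.inr_injective (hy i))
        rw [this]; exact h)
    (fun n f b => RelMap (L := ELang L₁ L₂) (Rels.f2 f : (ELang L₁ L₂).Relations (n + 1)) b)
    (by
      intro F hF n f x b hxb
      have := hS.rel F hF (n + 1) (Rels.f2 f : (ELang L₁ L₂).Relations (n + 1))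
        (fun i => Sum.inr (Sum.inl (x i))) b hxb
      rw [← this]
      constructor
      · intro h; exact ⟨x, fun _ => rfl, h⟩
      · rintro ⟨y, hy, h⟩
        have : x = y := by
          funext i
          exact Sum.inl_injective (Sum.inr_injective (hy i))
        rw [this]; exact h)
  -- the points
  let UP : N' → Prop := fun y => ¬ UM y ∧ ¬ UL y
  have hUP : ∀ F ∈ S, ∀ x y, (x, y) ∈ F → UP y → ∃ p, x = Sum.inr (Sum.inr p) := by
    intro F hF x y hxy hy
    rcases x with m | l | p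
    · exact (hy.1 ((hUM F hF _ _ hxy).1 ⟨m, rfl⟩)).elim
    · exact (hy.2 ((hUL F hF _ _ hxy).1 ⟨l, rfl⟩)).elim
    · exact ⟨p, rfl⟩
  let GR : N' → N' → N' → Prop := fun x y z =>
    RelMap (L := ELang L₁ L₂) (Rels.g : (ELang L₁ L₂).Relations 3) ![x, y, z]
  let AR : N' → N' → N' → Prop := fun x y z =>
    RelMap (L := ELang L₁ L₂) (Rels.a : (ELang L₁ L₂).Relations 3) ![x, y, z]
  have hGR : ∀ F ∈ S, ∀ p q m x y z, (Sum.inr (Sum.inr p), x) ∈ F → (Sum.inr (Sum.inr q), y) ∈ F →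
      (Sum.inl m, z) ∈ F → (GR x y z ↔ p ≠ q ∧ m = g p q) := by
    intro F hF p q m x y z hx hy hz
    have := hS.rel F hF 3 (Rels.g : (ELang L₁ L₂).Relations 3)
      ![Sum.inr (Sum.inr p), Sum.inr (Sum.inr q), Sum.inl m] ![x, y, z] (by
        intro i; fin_cases i
        · exact hx
        · exact hy
        · exact hz)
    change (RelMap (L := ELang L₁ L₂) (Rels.g : (ELang L₁ L₂).Relations 3) ![x, y, z]) ↔ _
    rw [← this]
    constructor
    · rintro ⟨p', q', hne, h0, h1, h2⟩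
      have e0 : p = p' := Sum.inr_injective (Sum.inr_injective h0)
      have e1 : q = q' := Sum.inr_injective (Sum.inr_injective h1)
      have e2 : m = g p' q' := Sum.inl_injective h2
      rw [e0, e1]; exact ⟨hne, e2⟩
    · rintro ⟨hne, e⟩
      exact ⟨p, q, hne, rfl, rfl, by rw [← e]; rfl⟩
  have hAR : ∀ F ∈ S, ∀ p q m x y z, (Sum.inr (Sum.inr p), x) ∈ F → (Sum.inr (Sum.inr q), y) ∈ F →
      (Sum.inr (Sum.inl m), z) ∈ F → (AR x y z ↔ p ≠ q ∧ m = a p q) := by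
    intro F hF p q m x y z hx hy hz
    have := hS.rel F hF 3 (Rels.a : (ELang L₁ L₂).Relations 3)
      ![Sum.inr (Sum.inr p), Sum.inr (Sum.inr q), Sum.inr (Sum.inl m)] ![x, y, z] (by
        intro i; fin_cases i
        · exact hx
        · exact hy
        · exact hz)
    change (RelMap (L := ELang L₁ L₂) (Rels.a : (ELang L₁ L₂).Relations 3) ![x, y, z]) ↔ _
    rw [← this]
    constructor
    · rintro ⟨p', q', hne, h0, h1, h2⟩
      have e0 : p = p' := Sum.inr_injective (Sum.inr_injective h0)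
      have e1 : q = q' := Sum.inr_injective (Sum.inr_injective h1)
      have e2 : m = a p' q' := Sum.inl_injective (Sum.inr_injective h2)
      rw [e0, e1]; exact ⟨hne, e2⟩
    · rintro ⟨hne, e⟩
      exact ⟨p, q, hne, rfl, rfl, by rw [← e]; rfl⟩
  have hneM : Nonempty {y // UM y} := by
    obtain ⟨y, hy⟩ := hS.forth ∅ hS.empty (Sum.inl (Classical.arbitrary M₀))
    exact ⟨⟨y, (hUM _ hy _ _ (Set.mem_insert _ _)).1 ⟨_, rfl⟩⟩⟩
  have hneL : Nonempty {y // UL y} := by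
    obtain ⟨y, hy⟩ := hS.forth ∅ hS.empty (Sum.inr (Sum.inl (Classical.arbitrary L₀)))
    exact ⟨⟨y, (hUL _ hy _ _ (Set.mem_insert _ _)).1 ⟨_, rfl⟩⟩⟩
  have hex : ∀ x y : {y // UP y}, ∃ (m : {y // UM y}) (l : {y // UL y}), x ≠ y →
      GR x y m ∧ AR x y l := by
    intro x y
    by_cases hxy : x = y
    · exact ⟨hneM.some, hneL.some, fun h => (h hxy).elim⟩
    · obtain ⟨F, hF, -, hcov⟩ := hS.back_finset {x.1, y.1} ∅ hS.empty
      obtain ⟨x0, hx0⟩ := hcov x.1 (by simp)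
      obtain ⟨y0, hy0⟩ := hcov y.1 (by simp)
      obtain ⟨p, rfl⟩ := hUP F hF _ _ hx0 x.2
      obtain ⟨q, rfl⟩ := hUP F hF _ _ hy0 y.2
      have hpq : p ≠ q := by
        rintro rfl
        exact hxy (Subtype.ext ((hS.inj F hF _ _ _ _ hx0 hy0).1 rfl))
      obtain ⟨m, hm⟩ := hS.forth F hF (Sum.inl (g p q))
      obtain ⟨l, hl⟩ := hS.forth F hF (Sum.inr (Sum.inl (a p q)))
      refine ⟨⟨m, (hUM _ hm _ _ (Set.mem_insert _ _)).1 ⟨_, rfl⟩⟩,
        ⟨l, (hUL _ hl _ _ (Set.mem_insert _ _)).1 ⟨_, rfl⟩⟩, fun _ => ⟨?_, ?_⟩⟩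
      · exact (hGR _ hm p q _ _ _ _ (Set.mem_insert_of_mem _ hx0) (Set.mem_insert_of_mem _ hy0)
          (Set.mem_insert _ _)).2 ⟨hpq, rfl⟩
      · exact (hAR _ hl p q _ _ _ _ (Set.mem_insert_of_mem _ hx0) (Set.mem_insert_of_mem _ hy0)
          (Set.mem_insert _ _)).2 ⟨hpq, rfl⟩
  choose g' a' hg' using hex
  refine ⟨{y // UM y}, {y // UL y}, {y // UP y}, sM, sL, S₁, S₂, hS₁, hS₂, ?_, ?_⟩
  · refine card_points_le g' a' ?_ ?_
    · intro x y hxy
      obtain ⟨F, hF, -, hcov⟩ := hS.back_finset {x.1, y.1, (g' x y).1, (g' y x).1} ∅ hS.empty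
      obtain ⟨x0, hx0⟩ := hcov x.1 (by simp)
      obtain ⟨y0, hy0⟩ := hcov y.1 (by simp)
      obtain ⟨m1, hm1⟩ := hcov (g' x y).1 (by simp)
      obtain ⟨m2, hm2⟩ := hcov (g' y x).1 (by simp)
      obtain ⟨p, rfl⟩ := hUP F hF _ _ hx0 x.2
      obtain ⟨q, rfl⟩ := hUP F hF _ _ hy0 y.2
      obtain ⟨m1, rfl⟩ := (hUM F hF _ _ hm1).2 (g' x y).2
      obtain ⟨m2, rfl⟩ := (hUM F hF _ _ hm2).2 (g' y x).2
      have e1 := (hGR F hF _ _ _ _ _ _ hx0 hy0 hm1).1 (hg' x y hxy).1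
      have e2 := (hGR F hF _ _ _ _ _ _ hy0 hx0 hm2).1 (hg' y x hxy.symm).1
      refine Subtype.ext ((hS.inj F hF _ _ _ _ hm1 hm2).1 ?_)
      rw [e1.2, e2.2, hG.sym p q e1.1]
    · intro x y z hxy hxz hyz h1 h2 h3
      obtain ⟨F, hF, -, hcov⟩ := hS.back_finset
        {x.1, y.1, z.1, (g' x z).1, (a' x z).1} ∅ hS.empty
      obtain ⟨x0, hx0⟩ := hcov x.1 (by simp)
      obtain ⟨y0, hy0⟩ := hcov y.1 (by simp)
      obtain ⟨z0, hz0⟩ := hcov z.1 (by simp)
      obtain ⟨m, hm⟩ := hcov (g' x z).1 (by simp)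
      obtain ⟨l, hl⟩ := hcov (a' x z).1 (by simp)
      obtain ⟨p, rfl⟩ := hUP F hF _ _ hx0 x.2
      obtain ⟨q, rfl⟩ := hUP F hF _ _ hy0 y.2
      obtain ⟨r, rfl⟩ := hUP F hF _ _ hz0 z.2
      obtain ⟨m, rfl⟩ := (hUM F hF _ _ hm).2 (g' x z).2
      obtain ⟨l, rfl⟩ := (hUL F hF _ _ hl).2 (a' x z).2
      have e1 := (hGR F hF _ _ _ _ _ _ hx0 hz0 hm).1 (hg' x z hxz).1
      have e2 := (hGR F hF _ _ _ _ _ _ hx0 hy0 hm).1 (by
        have := (hg' x y hxy).1
        rwa [h1] at this)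
      have e3 := (hGR F hF _ _ _ _ _ _ hy0 hz0 hm).1 (by
        have := (hg' y z hyz).1
        rwa [h2] at this)
      have e4 := (hAR F hF _ _ _ _ _ _ hx0 hz0 hl).1 (hg' x z hxz).2
      have e5 := (hAR F hF _ _ _ _ _ _ hy0 hz0 hl).1 (by
        have := (hg' y z hyz).2
        rwa [← h3] at this)
      exact hG.ax p q r e2.1 e1.1 e3.1 (e2.2.symm.trans e1.2) (e3.2.symm.trans e1.2)
        (e4.2.symm.trans e5.2)
  · have hle : ∀ y, UM y ∨ UL y ∨ UP y := by
      intro y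
      by_cases h1 : UM y
      · exact Or.inl h1
      · by_cases h2 : UL y
        · exact Or.inr (Or.inl h2)
        · exact Or.inr (Or.inr ⟨h1, h2⟩)
    have hinj : Function.Surjective (fun s : {y // UM y} ⊕ ({y // UL y} ⊕ {y // UP y}) =>
        (match s with
        | .inl y => y.1
        | .inr (.inl y) => y.1
        | .inr (.inr y) => y.1 : N')) := by
      intro y
      rcases hle y with h | h | h
      · exact ⟨.inl ⟨y, h⟩, rfl⟩
      · exact ⟨.inr (.inl ⟨y, h⟩), rfl⟩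
      · exact ⟨.inr (.inr ⟨y, h⟩), rfl⟩
    have := Cardinal.mk_le_of_surjective hinj
    simpa only [Cardinal.mk_sum, Cardinal.lift_id] using this

end Pool.Agent.MP_18f1d7_lc
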